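import Mathlib

/-!
# CX/Defs: ab-index and cd-polynomials
-/

set_option autoImplicit false

namespace Pool.Agent.H861.CX

open Finset

/-- the free algebra on the letters `a` (`false`) and `b` (`true`) -/
abbrev AB : Type := FreeAlgebra ℤ Bool

/-- the letter a -/
noncomputable def la : AB := FreeAlgebra.ι ℤ false

/-- the letter b -/
noncomputable def lb : AB := FreeAlgebra.ι ℤ true

/-- chains of nonempty faces with set of dimensions `S` -/
def chains {n : ℕ} (K : Finset (Finset (Fin n))) (S : Finset ℕ) :
    Finset (Finset (Finset (Fin n))) :=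
  K.powerset.filter (fun C => (∀ σ ∈ C, σ.Nonempty) ∧ (∀ σ ∈ C, ∀ τ ∈ C, σ ⊆ τ ∨ τ ⊆ σ) ∧
    C.image (fun σ => σ.card - 1) = S)

/-- the word with `b` at the positions in `S` and `a` elsewhere -/
noncomputable def abw (d : ℕ) (S : Finset ℕ) : AB :=
  ((List.range d).map (fun i => if i ∈ S then lb else la)).prod

/-- the ab-index: sum of the `h_S u_S` -/
noncomputable def abIndex {n : ℕ} (K : Finset (Finset (Fin n))) (d : ℕ) : AB :=
  ∑ S ∈ (range d).powerset,
    (∑ T ∈ S.powerset, (-1 : ℤ) ^ (S \ T).card * ((chains K T).card : ℤ)) • abw d S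

/-- the words of degree `m` in the letters `c` (`false`) of degree one and `d` (`true`) of degree
two -/
def wd : ℕ → Finset (List Bool)
  | 0 => {[]}
  | 1 => {[false]}
  | (m + 2) => (wd (m + 1)).image (List.cons false) ∪ (wd m).image (List.cons true)

/-- the value of a cd-word -/
noncomputable def cdw (w : List Bool) : AB :=
  (w.map (fun x => if x then la * lb + lb * la else la + lb)).prod

/-- the value of the cd-polynomial of degree `m` with the coefficients `x` -/
noncomputable def ev (m : ℕ) (x : List Bool → ℤ) : AB := ∑ w ∈ wd m, x w • cdw w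

/-- the derivation with `c ↦ d`, `d ↦ cd` on coefficient functions -/
def G : (List Bool → ℤ) → List Bool → ℤ
  | _, [] => 0
  | x, (false :: w) => G (fun t => x (false :: t)) w +
      (match w with
        | true :: w' => x (true :: w')
        | _ => 0)
  | x, (true :: w) => G (fun t => x (true :: t)) w + x (false :: w)

/-- multiplication with `c` from the right on coefficient functions -/
def mc (x : List Bool → ℤ) (w : List Bool) : ℤ :=
  if w.getLast? = some false then x w.dropLast else 0

/-- the cd-index of the simplex -/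
def Sf : ℕ → List Bool → ℤ
  | 0 => fun w => if w = [] then 1 else 0
  | (m + 1) => fun w => mc (Sf m) w + G (Sf m) w

/-- the polynomials `Φ_l` -/
def Ph (d l : ℕ) : List Bool → ℤ := if l < d then (G^[l]) (mc (Sf (d - 1 - l))) else 0

/-- the ab-version of the simplex, for a derivation `D` -/
noncomputable def SA (D : AB → AB) : ℕ → AB
  | 0 => 1
  | (m + 1) => SA D m * (la + lb) + D (SA D m)

/-- the polynomials `E_i` -/
noncomputable def E (D : AB → AB) (d i : ℕ) : AB :=
  if i = 0 then (if d = 0 then 1 else SA D (d - 1) * la) else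
    ∑ k ∈ range (d - i + 1), ((d - i).choose k : ℤ) •
      (SA D (i - 1 + k) * lb * (la - lb) ^ (d - i - k))

/-- `D` is the derivation with `a ↦ ba`, `b ↦ ab` -/
def IsDer (D : AB → AB) : Prop :=
  (∀ x y, D (x + y) = D x + D y) ∧ (∀ x y, D (x * y) = D x * y + x * D y) ∧
    D la = lb * la ∧ D lb = la * lb

end Pool.Agent.H861.CX
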