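import Pool.Agent.H861.CX.Defs

/-!
# CX/T3: the inequality for the polynomials F_i
-/

set_option autoImplicit false

namespace Pool.Agent.H861.CX

open Finset

namespace T3aux

theorem G_nil (x : List Bool → ℤ) : G x [] = 0 := rfl

theorem G_t (x : List Bool → ℤ) (w : List Bool) :
    G x (true :: w) = G (fun t => x (true :: t)) w + x (false :: w) := rfl

theorem G_f0 (x : List Bool → ℤ) : G x [false] = 0 := rfl

theorem G_ft (x : List Bool → ℤ) (w : List Bool) :
    G x (false :: true :: w) = G (fun t => x (false :: t)) (true :: w) + x (true :: w) := rfl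

theorem G_ff (x : List Bool → ℤ) (w : List Bool) :
    G x (false :: false :: w) = G (fun t => x (false :: t)) (false :: w) := add_zero _

theorem G_mono : ∀ (w : List Bool) (y z : List Bool → ℤ), (∀ t, t ≠ [] → y t ≤ z t) →
    G y w ≤ G z w := by
  intro w
  induction w with
  | nil => intro y z _; exact le_rfl
  | cons b w ih =>
    intro y z h
    have h1 := ih (fun t => y (b :: t)) (fun t => z (b :: t)) (fun t _ => h _ (by simp))
    cases b
    · rcases w with _ | ⟨b', w'⟩
      · rw [G_f0, G_f0]
      · cases b'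
        · rw [G_ff, G_ff]
          exact h1
        · rw [G_ft, G_ft]
          exact add_le_add h1 (h _ (by simp))
    · rw [G_t, G_t]
      exact add_le_add h1 (h _ (by simp))

theorem G_lin : ∀ (w : List Bool) (y z : List Bool → ℤ) (a b : ℤ),
    G (fun t => a * y t + b * z t) w = a * G y w + b * G z w := by
  intro w
  induction w with
  | nil => intro y z a b; rw [G_nil, G_nil, G_nil]; ring
  | cons c w ih =>
    intro y z a b
    have h1 := ih (fun t => y (c :: t)) (fun t => z (c :: t)) a b
    cases c
    · rcases w with _ | ⟨b', w'⟩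
      · rw [G_f0, G_f0, G_f0]; ring
      · cases b'
        · rw [G_ff, G_ff, G_ff]
          exact h1
        · rw [G_ft, G_ft, G_ft, h1]
          ring
    · rw [G_t, G_t, G_t, h1]
      ring

/-- nonnegative functions -/
def NN (x : List Bool → ℤ) : Prop := ∀ w, 0 ≤ x w

/-- the property for nonempty `v` -/
def PP (x : List Bool → ℤ) : Prop :=
  ∀ u v, v ≠ [] → x (u ++ false :: false :: v) ≤ x (u ++ true :: v)

/-- the case of empty `v` -/
def La (x : List Bool → ℤ) (u : List Bool) : ℤ := x (u ++ [true]) - x (u ++ [false, false])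

theorem NN_G {x : List Bool → ℤ} (h : NN x) : NN (G x) := by
  intro w
  have h1 := G_mono w (fun _ => 0) x (fun t _ => h t)
  have h2 := G_lin w x x 0 0
  simp only [zero_mul, add_zero] at h2
  rw [h2] at h1
  exact h1

theorem PP_G_aux : ∀ (u v : List Bool) (x : List Bool → ℤ), NN x → PP x → v ≠ [] →
    G x (u ++ false :: false :: v) ≤ G x (u ++ true :: v) := by
  intro u
  induction u with
  | nil =>
    intro v x h0 hP hv
    simp only [List.nil_append]
    rw [G_ff, G_t]
    obtain ⟨b, v', rfl⟩ := List.exists_cons_of_ne_nil hv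
    have h1 : G (fun t => x (false :: false :: t)) (b :: v') ≤
        G (fun t => x (true :: t)) (b :: v') := G_mono _ _ _ (fun t ht => hP [] t ht)
    cases b
    · rw [G_ff]
      have := h0 (false :: false :: v')
      linarith
    · rw [G_ft]
      linarith
  | cons b u ih =>
    intro v x h0 hP hv
    have ihb := ih v (fun t => x (b :: t)) (fun w => h0 _)
      (fun u' v' hv' => hP (b :: u') v' hv') hv
    simp only [List.cons_append]
    cases b
    · rcases u with _ | ⟨b', u'⟩
      · simp only [List.nil_append] at ihb ⊢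
        rw [G_ff, G_ft]
        have := h0 (true :: v)
        linarith
      · simp only [List.cons_append] at ihb ⊢
        cases b'
        · rw [G_ff, G_ff]
          exact ihb
        · rw [G_ft, G_ft]
          have := hP (true :: u') v hv
          simp only [List.cons_append] at this
          linarith
    · rw [G_t, G_t]
      have := hP (false :: u) v hv
      simp only [List.cons_append] at this
      linarith

theorem PP_G {x : List Bool → ℤ} (h0 : NN x) (h1 : PP x) : PP (G x) :=
  fun u v hv => PP_G_aux u v x h0 h1 hv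

theorem La_G : ∀ (u : List Bool) (x : List Bool → ℤ), NN x →
    G (La x) u + x (u ++ [false]) ≤ La (G x) u := by
  intro u
  induction u with
  | nil =>
    intro x _
    simp only [La, List.nil_append]
    rw [G_nil, G_t, G_ff, G_nil, G_f0]
    linarith
  | cons b u ih =>
    intro x h0
    have ihb := ih (fun t => x (b :: t)) (fun w => h0 _)
    have e : La (fun t => x (b :: t)) = fun t => La x (b :: t) := rfl
    rw [e] at ihb
    simp only [La, List.cons_append] at ihb ⊢
    cases b
    · rcases u with _ | ⟨b', u'⟩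
      · simp only [List.nil_append] at ihb ⊢
        rw [G_f0, G_ft, G_ff]
        rw [G_nil] at ihb
        have := h0 [true]
        linarith
      · simp only [List.cons_append] at ihb ⊢
        cases b'
        · rw [G_ff, G_ff, G_ff]
          exact ihb
        · rw [G_ft, G_ft, G_ft]
          simp only [La, List.cons_append]
          linarith
    · rw [G_t, G_t, G_t]
      simp only [La, List.cons_append]
      linarith

theorem G_c : ∀ (u : List Bool) (x : List Bool → ℤ),
    G x (u ++ [false]) = G (fun t => x (t ++ [false])) u := by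
  intro u
  induction u with
  | nil => intro x; rfl
  | cons b u ih =>
    intro x
    have ihb := ih (fun t => x (b :: t))
    simp only [List.cons_append] at ihb ⊢
    cases b
    · rcases u with _ | ⟨b', u'⟩
      · rfl
      · simp only [List.cons_append] at ihb ⊢
        cases b'
        · rw [G_ff, G_ff]
          exact ihb
        · rw [G_ft, G_ft, ihb]
          rfl
    · rw [G_t, G_t, ihb]
      rfl

theorem mc_f (x : List Bool → ℤ) (u : List Bool) : mc x (u ++ [false]) = x u := by
  simp [mc]

theorem mc_t (x : List Bool → ℤ) (u : List Bool) : mc x (u ++ [true]) = 0 := by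
  simp [mc]

theorem NN_mc {x : List Bool → ℤ} (h : NN x) : NN (mc x) := by
  intro w
  unfold mc
  split_ifs
  · exact h _
  · exact le_rfl

theorem La_mc (x : List Bool → ℤ) (u : List Bool) : La (mc x) u = - x (u ++ [false]) := by
  have e : u ++ [false, false] = (u ++ [false]) ++ [false] := by simp
  unfold La
  rw [mc_t, e, mc_f]
  ring

theorem PP_mc {x : List Bool → ℤ} (h : PP x) (h0 : NN (La x)) : PP (mc x) := by
  intro u v hv
  obtain ⟨v', b, rfl⟩ : ∃ v' b, v = v' ++ [b] :=
    ⟨v.dropLast, v.getLast hv, (List.dropLast_append_getLast hv).symm⟩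
  have e1 : u ++ false :: false :: (v' ++ [b]) = (u ++ false :: false :: v') ++ [b] := by simp
  have e2 : u ++ true :: (v' ++ [b]) = (u ++ true :: v') ++ [b] := by simp
  rw [e1, e2]
  cases b
  · rw [mc_f, mc_f]
    by_cases hv' : v' = []
    · subst hv'
      have := h0 u
      unfold La at this
      linarith
    · exact h u v' hv'
  · rw [mc_t, mc_t]

theorem Sf_props : ∀ m, NN (Sf m) ∧ PP (Sf m) ∧ NN (La (Sf m)) := by
  intro m
  induction m with
  | zero =>
    refine ⟨fun w => ?_, fun u v _ => ?_, fun u => ?_⟩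
    · simp only [Sf]
      split_ifs <;> norm_num
    · simp [Sf]
    · simp [Sf, La]
  | succ m ih =>
    obtain ⟨h1, h2, h3⟩ := ih
    refine ⟨fun w => ?_, fun u v hv => ?_, fun u => ?_⟩
    · exact add_nonneg (NN_mc h1 w) (NN_G h1 w)
    · exact add_le_add (PP_mc h2 h3 u v hv) (PP_G h1 h2 u v hv)
    · have e : La (Sf (m + 1)) u = La (mc (Sf m)) u + La (G (Sf m)) u := by
        simp only [La, Sf]
        ring
      have h4 := La_G u (Sf m) h1
      have h5 := NN_G h3 u
      rw [e, La_mc]
      linarith

theorem iter_props (x : List Bool → ℤ) (h1 : NN x) (h2 : PP x) (l : ℕ) :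
    NN (G^[l] x) ∧ PP (G^[l] x) := by
  induction l with
  | zero => exact ⟨h1, h2⟩
  | succ l ih =>
    rw [Function.iterate_succ_apply']
    exact ⟨NN_G ih.1, PP_G ih.1 ih.2⟩

theorem iter_NN (x : List Bool → ℤ) (h1 : NN x) (l : ℕ) : NN (G^[l] x) := by
  induction l with
  | zero => exact h1
  | succ l ih =>
    rw [Function.iterate_succ_apply']
    exact NN_G ih

theorem iter_c (x : List Bool → ℤ) (l : ℕ) :
    (fun t => (G^[l] x) (t ++ [false])) = G^[l] (fun t => x (t ++ [false])) := by
  induction l with
  | zero => rfl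
  | succ l ih =>
    rw [Function.iterate_succ_apply', Function.iterate_succ_apply', ← ih]
    funext t
    exact G_c t _

theorem iter_mono (y z : List Bool → ℤ) (h : ∀ t, y t ≤ z t) (l : ℕ) :
    ∀ t, (G^[l] y) t ≤ (G^[l] z) t := by
  induction l with
  | zero => exact h
  | succ l ih =>
    intro t
    rw [Function.iterate_succ_apply', Function.iterate_succ_apply']
    exact G_mono t _ _ fun t _ => ih t

theorem iter_lin (y z : List Bool → ℤ) (a b : ℤ) (l : ℕ) :
    (G^[l] (fun t => a * y t + b * z t)) = fun t => a * (G^[l] y) t + b * (G^[l] z) t := by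
  induction l with
  | zero => rfl
  | succ l ih =>
    rw [Function.iterate_succ_apply', ih, Function.iterate_succ_apply',
      Function.iterate_succ_apply']
    funext t
    exact G_lin t _ _ a b

/-- (2), iterated -/
theorem La_iter (x : List Bool → ℤ) (h : NN x) (l : ℕ) : ∀ u,
    (G^[l + 1] (La x)) u + ((l : ℤ) + 1) * (G^[l] (fun t => x (t ++ [false]))) u ≤
      La (G^[l + 1] x) u := by
  induction l with
  | zero =>
    intro u
    have := La_G u x h
    simpa using this
  | succ l ih =>
    intro u
    have h1 := La_G u (G^[l + 1] x) (iter_NN x h (l + 1))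
    have h2 := G_mono u _ _ (fun t _ => ih t)
    have h3 := G_lin u (G^[l + 1] (La x)) (G^[l] (fun t => x (t ++ [false]))) 1 ((l : ℤ) + 1)
    simp only [one_mul] at h3
    rw [h3] at h2
    have h4 := congrFun (iter_c x (l + 1)) u
    beta_reduce at h4
    rw [h4] at h1
    rw [Function.iterate_succ_apply' G (l + 1) (La x), Function.iterate_succ_apply' G (l + 1) x]
    have h5 : G (G^[l] fun t => x (t ++ [false])) u =
      (G^[l + 1] fun t => x (t ++ [false])) u := by
      rw [Function.iterate_succ_apply']
    rw [h5] at h2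
    push_cast
    linarith

theorem Sf_c (q : ℕ) : ∀ (l : ℕ) (u : List Bool), (G^[l] (fun t => Sf q (t ++ [false]))) u =
    ∑ p ∈ range q, (G^[l + p] (Sf (q - 1 - p))) u := by
  induction q with
  | zero =>
    intro l u
    rw [range_zero, sum_empty]
    have e : (fun t : List Bool => Sf 0 (t ++ [false])) = fun t => 0 * Sf 0 t + 0 * Sf 0 t := by
      funext t
      simp [Sf]
    rw [e, iter_lin]
    ring
  | succ q ih =>
    intro l u
    have e : (fun t => Sf (q + 1) (t ++ [false])) =
        fun t => 1 * Sf q t + 1 * G (fun s => Sf q (s ++ [false])) t := by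
      funext t
      rw [one_mul, one_mul, ← G_c]
      show mc (Sf q) (t ++ [false]) + G (Sf q) (t ++ [false]) = _
      rw [mc_f]
    rw [e, iter_lin, sum_range_succ']
    have h1 : (G^[l] (G (fun s => Sf q (s ++ [false])))) u =
        ∑ p ∈ range q, (G^[l + (p + 1)] (Sf (q + 1 - 1 - (p + 1)))) u := by
      rw [← Function.iterate_succ_apply, ih (l + 1) u]
      refine sum_congr rfl fun p hp => ?_
      have e1 : l + 1 + p = l + (p + 1) := by omega
      have e2 : q - 1 - p = q + 1 - 1 - (p + 1) := by omega
      rw [e1, e2]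
    beta_reduce
    rw [h1]
    have e3 : q + 1 - 1 - 0 = q := by omega
    rw [e3, add_zero]
    ring

/-- the numerical inequality -/
theorem num_eq (s : ℕ → ℤ) (N j : ℕ) (n : ℕ) (h : j + n ≤ N) :
    ∑ t ∈ range n, (((j + 1 + t : ℕ) : ℤ) * s (j + t) - ∑ m ∈ Ico (j + 1 + t) N, s m) =
      ((j : ℤ) + 1) * ∑ t ∈ range n, s (j + t) - n * ∑ m ∈ Ico (j + n) N, s m := by
  induction n with
  | zero => simp
  | succ n ih =>
    have h1 := ih (by omega)
    rw [sum_range_succ, h1, sum_range_succ]
    have h2 : ∑ m ∈ Ico (j + n) N, s m = s (j + n) + ∑ m ∈ Ico (j + n + 1) N, s m :=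
      sum_eq_sum_Ico_succ_bot (by omega) _
    have e : j + 1 + n = j + n + 1 := by omega
    have e' : j + (n + 1) = j + n + 1 := by omega
    rw [h2, e, e']
    push_cast
    ring

theorem num_ineq (s : ℕ → ℤ) (N j n : ℕ) (hn : 1 ≤ n) (hN : N = j + n + j)
    (h0 : ∀ m, m < N → 0 ≤ s m) (h1 : ∀ m, m + 1 < N → s (m + 1) ≤ s m) :
    0 ≤ ∑ t ∈ range n, (((j + 1 + t : ℕ) : ℤ) * s (j + t) - ∑ m ∈ Ico (j + 1 + t) N, s m) := by
  have hanti : ∀ a b, a ≤ b → b < N → s b ≤ s a := by
    intro a b hab
    induction b, hab using Nat.le_induction with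
    | base => intro _; exact le_rfl
    | succ b _ ih => intro hb; exact (h1 b hb).trans (ih (by omega))
  rw [num_eq s N j n (by omega)]
  have hS : 0 ≤ s (j + n - 1) := h0 _ (by omega)
  have h2 : (n : ℤ) * s (j + n - 1) ≤ ∑ t ∈ range n, s (j + t) := by
    have := card_nsmul_le_sum (range n) (fun t => s (j + t)) (s (j + n - 1)) (fun t ht =>
      hanti _ _ (by have := mem_range.1 ht; omega) (by omega))
    rwa [card_range, nsmul_eq_mul] at this
  have h3 : ∑ m ∈ Ico (j + n) N, s m ≤ (j : ℤ) * s (j + n - 1) := by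
    have := sum_le_card_nsmul (Ico (j + n) N) s (s (j + n - 1)) (fun m hm =>
      hanti _ _ (by have := mem_Ico.1 hm; omega) (mem_Ico.1 hm).2)
    rw [Nat.card_Ico, nsmul_eq_mul] at this
    have e : N - (j + n) = j := by omega
    rwa [e] at this
  have h4 : (0 : ℤ) ≤ n := by positivity
  have h5 : (0 : ℤ) ≤ j := by positivity
  have h6 := mul_le_mul_of_nonneg_left h2 (by linarith : (0 : ℤ) ≤ (j : ℤ) + 1)
  have h7 := mul_le_mul_of_nonneg_left h3 h4
  have h8 : 0 ≤ (n : ℤ) * s (j + n - 1) := mul_nonneg h4 hS
  nlinarith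

/-- lower bound of one term -/
theorem La_Ph (d l : ℕ) (hl : l + 1 < d) (u : List Bool) :
    ((l + 1 : ℕ) : ℤ) * (G^[l] (Sf (d - 2 - l))) u -
      ∑ m ∈ Ico (l + 1) (d - 1), (G^[m] (Sf (d - 2 - m))) u ≤ La (Ph d (l + 1)) u := by
  have e0 : d - 1 - (l + 1) = d - 2 - l := by omega
  have e1 : Ph d (l + 1) = G^[l + 1] (mc (Sf (d - 2 - l))) := by
    unfold Ph
    rw [if_pos hl, e0]
  obtain ⟨h1, h2, h3⟩ := Sf_props (d - 2 - l)
  have h4 := La_iter (mc (Sf (d - 2 - l))) (NN_mc h1) l u
  have e2 : (fun t => mc (Sf (d - 2 - l)) (t ++ [false])) = Sf (d - 2 - l) := by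
    funext t
    exact mc_f _ t
  have e3 : La (mc (Sf (d - 2 - l))) = fun t => (-1) * Sf (d - 2 - l) (t ++ [false]) +
      0 * Sf (d - 2 - l) (t ++ [false]) := by
    funext t
    rw [La_mc]
    ring
  rw [e2, e3, iter_lin] at h4
  beta_reduce at h4
  rw [Sf_c] at h4
  have e4 : ∑ m ∈ Ico (l + 1) (d - 1), (G^[m] (Sf (d - 2 - m))) u =
      ∑ p ∈ range (d - 2 - l), (G^[l + 1 + p] (Sf (d - 2 - l - 1 - p))) u := by
    rw [sum_Ico_eq_sum_range]
    have e5 : d - 1 - (l + 1) = d - 2 - l := by omega
    rw [e5]
    refine sum_congr rfl fun p _ => ?_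
    have e6 : d - 2 - (l + 1 + p) = d - 2 - l - 1 - p := by omega
    rw [e6]
  rw [e1, e4]
  push_cast
  linarith

theorem Ph_PP (d l : ℕ) : PP (Ph d l) := by
  unfold Ph
  split_ifs
  · obtain ⟨h1, h2, h3⟩ := Sf_props (d - 1 - l)
    exact (iter_props _ (NN_mc h1) (PP_mc h2 h3) l).2
  · intro u v _
    exact le_rfl

end T3aux

open T3aux

theorem main_ineq {d i : ℕ} (hi : 1 ≤ i) (hd : 2 * i ≤ d) (u v : List Bool) :
    ∑ l ∈ Icc i (d - i), Ph d l (u ++ false :: false :: v) ≤
      ∑ l ∈ Icc i (d - i), Ph d l (u ++ true :: v) := by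
  by_cases hv : v = []
  · subst hv
    have h1 : 0 ≤ ∑ l ∈ Icc i (d - i), La (Ph d l) u := by
      obtain ⟨j, rfl⟩ : ∃ j, i = j + 1 := ⟨i - 1, by omega⟩
      obtain ⟨n, hn⟩ : ∃ n, d = 2 * j + 1 + n := ⟨d - (2 * j + 1), by omega⟩
      have e : Icc (j + 1) (d - (j + 1)) = Ico (j + 1) (j + 1 + n) := by
        ext l
        simp only [mem_Icc, mem_Ico]
        omega
      rw [e, sum_Ico_eq_sum_range]
      have e2 : j + 1 + n - (j + 1) = n := by omega
      rw [e2]
      refine le_trans (num_ineq (fun m => (G^[m] (Sf (d - 2 - m))) u) (d - 1) j n (by omega)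
        (by omega) (fun m _ => iter_NN _ (Sf_props _).1 m u) (fun m hm => ?_)) ?_
      · rw [Function.iterate_succ_apply]
        refine iter_mono _ _ (fun t => ?_) m u
        have e3 : d - 2 - m = d - 2 - (m + 1) + 1 := by omega
        rw [e3]
        show _ ≤ mc (Sf (d - 2 - (m + 1))) t + G (Sf (d - 2 - (m + 1))) t
        have := NN_mc (Sf_props (d - 2 - (m + 1))).1 t
        linarith
      · refine sum_le_sum fun t ht => ?_
        have ht' := mem_range.1 ht
        have h2 := La_Ph d (j + t) (by omega) u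
        have e4 : j + 1 + t = j + t + 1 := by omega
        rw [e4]
        exact h2
    have h2 : ∑ l ∈ Icc i (d - i), La (Ph d l) u =
        ∑ l ∈ Icc i (d - i), Ph d l (u ++ [true]) -
          ∑ l ∈ Icc i (d - i), Ph d l (u ++ [false, false]) := by
      rw [← sum_sub_distrib]
      rfl
    rw [h2] at h1
    linarith
  · exact sum_le_sum fun l _ => Ph_PP d l u v hv

end Pool.Agent.H861.CX
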