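import Pool.Agent.H861.CX.Defs

/-!
# CX/T4: the ab-index by the largest elements of the chains

(1) `abIndex K d = ∑ T ∈ (range d).powerset, (chains K T).card • ∏_(i<d) (if i ∈ T then b else a - b)`
(exchange the sums; for fixed `T` the sum over `S ⊇ T` of `(-1)^|S \ T| u_S` is that ordered
product; induction on `d`).
(2) If all faces have at most `d` elements, this is the sum over all chains `C` of nonempty faces of
the word of `C` (`b` at the positions `card - 1` of elements of `C`, `a - b` elsewhere).
(3) Group by the largest element `F` of the chain (`|F| = j + 1`, or the empty chain): the chains with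
largest element `F` correspond to the chains of proper nonempty subsets of `F`, that is
(a bijection of `F` with `Fin (j+1)`) to the chains of `bd j`, and the word is
`(word of length j) * b * (a-b)^(d-1-j)`.
-/

set_option autoImplicit false

namespace Pool.Agent.H861.CX

open Finset

/-- the boundary of the simplex with `j + 1` vertices -/
def bd (j : ℕ) : Finset (Finset (Fin (j + 1))) := univ.filter (fun σ => σ ≠ univ)

namespace T4aux

/-- the word of `T` -/
noncomputable def wT (d : ℕ) (T : Finset ℕ) : AB :=
  ((List.range d).map (fun i => if i ∈ T then lb else la - lb)).prod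

lemma wT_succ (d : ℕ) (T : Finset ℕ) :
    wT (d + 1) T = wT d T * (if d ∈ T then lb else la - lb) := by
  simp [wT, List.range_succ]

lemma abw_succ (d : ℕ) (S : Finset ℕ) : abw (d + 1) S = abw d S * (if d ∈ S then lb else la) := by
  simp [abw, List.range_succ]

lemma abw_congr (d : ℕ) {S S' : Finset ℕ} (h : ∀ i < d, (i ∈ S ↔ i ∈ S')) :
    abw d S = abw d S' := by
  unfold abw
  congr 1
  apply List.map_congr_left
  intro i hi
  rw [List.mem_range] at hi
  simp only [h i hi]

lemma wT_congr (d : ℕ) {S S' : Finset ℕ} (h : ∀ i < d, (i ∈ S ↔ i ∈ S')) :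
    wT d S = wT d S' := by
  unfold wT
  congr 1
  apply List.map_congr_left
  intro i hi
  rw [List.mem_range] at hi
  simp only [h i hi]

lemma step1 (d : ℕ) : ∀ T : Finset ℕ, ∑ S ∈ (range d).powerset,
    (if T ∩ range d ⊆ S then (-1 : ℤ) ^ (S \ T).card else 0) • abw d S = wT d T := by
  induction d with
  | zero =>
    intro T
    simp [wT, abw]
  | succ d ih =>
    intro T
    rw [range_add_one, Finset.sum_powerset_insert (by simp), wT_succ, ← ih T, Finset.sum_mul]
    by_cases hT : d ∈ T
    · rw [if_pos hT]
      have h1 : ∑ S ∈ (range d).powerset, (if T ∩ insert d (range d) ⊆ S then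
          (-1 : ℤ) ^ (S \ T).card else 0) • abw (d + 1) S = 0 := by
        apply Finset.sum_eq_zero
        intro S hS
        rw [mem_powerset] at hS
        rw [if_neg, zero_smul]
        intro h
        have h2 : d ∈ S := h (by simp [hT])
        have h3 := hS h2
        simp at h3
      rw [h1, zero_add]
      apply Finset.sum_congr rfl
      intro S hS
      rw [mem_powerset] at hS
      have e1 : (T ∩ insert d (range d) ⊆ insert d S) ↔ (T ∩ range d ⊆ S) := by
        constructor
        · intro h x hx
          rw [mem_inter, mem_range] at hx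
          have h4 := h (show x ∈ T ∩ insert d (range d) by
            rw [mem_inter, mem_insert, mem_range]; exact ⟨hx.1, Or.inr hx.2⟩)
          rw [mem_insert] at h4
          rcases h4 with h2 | h2
          · omega
          · exact h2
        · intro h x hx
          rw [mem_inter, mem_insert] at hx
          rcases hx.2 with h2 | h2
          · simp [h2]
          · exact mem_insert_of_mem (h (mem_inter.2 ⟨hx.1, h2⟩))
      have e2 : insert d S \ T = S \ T := Finset.insert_sdiff_of_mem _ hT
      have e3 : abw d (insert d S) = abw d S := abw_congr d (by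
        intro i hi
        rw [mem_insert]
        constructor
        · rintro (h | h)
          · omega
          · exact h
        · exact Or.inr)
      rw [abw_succ, if_pos (mem_insert_self _ _), e2, e3]
      simp only [e1]
      rw [smul_mul_assoc]
    · rw [if_neg hT, ← Finset.sum_add_distrib]
      apply Finset.sum_congr rfl
      intro S hS
      rw [mem_powerset] at hS
      have hdS : d ∉ S := fun h => by
        have := hS h
        simp at this
      have e0 : T ∩ insert d (range d) = T ∩ range d := Finset.inter_insert_of_notMem hT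
      have e1 : (T ∩ range d ⊆ insert d S) ↔ (T ∩ range d ⊆ S) := by
        apply Finset.subset_insert_iff_of_notMem
        simp
      have e2 : (insert d S \ T).card = (S \ T).card + 1 := by
        rw [Finset.insert_sdiff_of_notMem _ hT, Finset.card_insert_of_notMem]
        intro h
        exact hdS (mem_sdiff.1 h).1
      have e3 : abw d (insert d S) = abw d S := abw_congr d (by
        intro i hi
        rw [mem_insert]
        constructor
        · rintro (h | h)
          · omega
          · exact h
        · exact Or.inr)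
      rw [abw_succ, abw_succ, if_pos (mem_insert_self _ _), if_neg hdS, e3, e0, e2]
      simp only [e1]
      by_cases h : T ∩ range d ⊆ S
      · rw [if_pos h, if_pos h, pow_succ, mul_neg_one, neg_smul, mul_sub, smul_mul_assoc,
          smul_mul_assoc, sub_eq_add_neg]
      · rw [if_neg h, if_neg h]
        simp

lemma abIndex_eq {n : ℕ} (K : Finset (Finset (Fin n))) (d : ℕ) :
    abIndex K d = ∑ T ∈ (range d).powerset, ((chains K T).card : ℤ) • wT d T := by
  unfold abIndex
  have h1 : ∀ S ∈ (range d).powerset,
      (∑ T ∈ S.powerset, (-1 : ℤ) ^ (S \ T).card * ((chains K T).card : ℤ)) • abw d S =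
      ∑ T ∈ (range d).powerset, ((chains K T).card : ℤ) •
        ((if T ∩ range d ⊆ S then (-1 : ℤ) ^ (S \ T).card else 0) • abw d S) := by
    intro S hS
    rw [mem_powerset] at hS
    have e : S.powerset = (range d).powerset.filter (fun T => T ⊆ S) := by
      ext T
      rw [mem_filter, mem_powerset, mem_powerset]
      exact ⟨fun h => ⟨h.trans hS, h⟩, fun h => h.2⟩
    rw [Finset.sum_smul, e, Finset.sum_filter]
    apply Finset.sum_congr rfl
    intro T hT
    have e2 : T ∩ range d = T := inter_eq_left.2 (mem_powerset.1 hT)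
    rw [e2]
    split_ifs
    · rw [smul_smul, mul_comm]
    · simp
  rw [Finset.sum_congr rfl h1, Finset.sum_comm]
  apply Finset.sum_congr rfl
  intro T _
  rw [← Finset.smul_sum, step1]

/-- all chains of nonempty faces -/
def allch {n : ℕ} (K : Finset (Finset (Fin n))) : Finset (Finset (Finset (Fin n))) :=
  K.powerset.filter (fun C => (∀ σ ∈ C, σ.Nonempty) ∧ (∀ σ ∈ C, ∀ τ ∈ C, σ ⊆ τ ∨ τ ⊆ σ))

/-- the dimensions -/
def dm {n : ℕ} (C : Finset (Finset (Fin n))) : Finset ℕ := C.image (fun σ => σ.card - 1)

lemma mem_allch {n : ℕ} {K : Finset (Finset (Fin n))} {C : Finset (Finset (Fin n))} :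
    C ∈ allch K ↔ C ⊆ K ∧ (∀ σ ∈ C, σ.Nonempty) ∧ (∀ σ ∈ C, ∀ τ ∈ C, σ ⊆ τ ∨ τ ⊆ σ) := by
  unfold allch
  rw [mem_filter, mem_powerset]

lemma abIndex_chains {n d : ℕ} {K : Finset (Finset (Fin n))} (hd : ∀ σ ∈ K, σ.card ≤ d) :
    abIndex K d = ∑ C ∈ allch K, wT d (dm C) := by
  rw [abIndex_eq, ← Finset.sum_fiberwise_of_maps_to (s := allch K) (t := (range d).powerset)
    (g := dm)]
  · apply Finset.sum_congr rfl
    intro T _
    have e : chains K T = (allch K).filter (fun C => dm C = T) := by
      ext C
      unfold chains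
      rw [mem_filter, mem_filter, mem_allch, mem_powerset]
      unfold dm
      tauto
    rw [e]
    have e2 : ∑ C ∈ (allch K).filter (fun C => dm C = T), wT d (dm C) =
        ∑ C ∈ (allch K).filter (fun C => dm C = T), wT d T := by
      apply Finset.sum_congr rfl
      intro C hC
      rw [(mem_filter.1 hC).2]
    rw [e2, Finset.sum_const]
    simp
  · intro C hC
    rw [mem_allch] at hC
    rw [mem_powerset]
    intro i hi
    unfold dm at hi
    rw [mem_image] at hi
    obtain ⟨σ, hσ, rfl⟩ := hi
    have h1 := hd σ (hC.1 hσ)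
    have h2 := card_pos.2 (hC.2.1 σ hσ)
    rw [mem_range]
    omega

lemma sup_mem_chain {n : ℕ} {C : Finset (Finset (Fin n))}
    (h : ∀ σ ∈ C, ∀ τ ∈ C, σ ⊆ τ ∨ τ ⊆ σ) : C.sup id = ∅ ∨ C.sup id ∈ C := by
  have h1 : C.sup id ∈ (insert ∅ (C : Set (Finset (Fin n)))) := by
    apply Finset.sup_mem
    · exact Set.mem_insert _ _
    · intro x hx y hy
      rcases hx with hx | hx
      · rw [hx]
        simpa using hy
      · rcases hy with hy | hy
        · rw [hy]
          simp only [sup_eq_union, union_empty]
          exact Or.inr hx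
        · rcases h x (by exact_mod_cast hx) y (by exact_mod_cast hy) with h2 | h2
          · rw [sup_eq_union, union_eq_right.2 h2]; exact Or.inr hy
          · rw [sup_eq_union, union_eq_left.2 h2]; exact Or.inr hx
    · intro i hi
      exact Or.inr (by exact_mod_cast hi)
  rcases h1 with h1 | h1
  · exact Or.inl h1
  · exact Or.inr (by exact_mod_cast h1)

lemma fiber {n : ℕ} {K : Finset (Finset (Fin n))}
    (hc : ∀ σ ∈ K, ∀ τ : Finset (Fin n), τ ⊆ σ → τ ∈ K) {F : Finset (Fin n)} (hF : F ∈ K)
    (hne : F.Nonempty) :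
    (allch K).filter (fun C => C.sup id = F) = (allch F.ssubsets).image (insert F) := by
  ext C
  rw [mem_filter, mem_image, mem_allch]
  constructor
  · rintro ⟨⟨h1, h2, h3⟩, h4⟩
    have hFC : F ∈ C := by
      rcases sup_mem_chain h3 with h5 | h5
      · rw [h4] at h5
        exact absurd h5 hne.ne_empty
      · rwa [h4] at h5
    refine ⟨C.erase F, ?_, insert_erase hFC⟩
    rw [mem_allch]
    refine ⟨?_, fun σ hσ => h2 σ (mem_of_mem_erase hσ),
      fun σ hσ τ hτ => h3 σ (mem_of_mem_erase hσ) τ (mem_of_mem_erase hτ)⟩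
    intro σ hσ
    rw [mem_erase] at hσ
    rw [mem_ssubsets]
    have h6 : σ ≤ F := by
      rw [← h4]
      exact Finset.le_sup (f := id) hσ.2
    exact lt_of_le_of_ne h6 hσ.1
  · rintro ⟨C', hC', rfl⟩
    rw [mem_allch] at hC'
    obtain ⟨h1, h2, h3⟩ := hC'
    have h5 : ∀ σ ∈ C', σ ⊆ F := fun σ hσ => (mem_ssubsets.1 (h1 hσ)).1
    refine ⟨⟨?_, ?_, ?_⟩, ?_⟩
    · intro σ hσ
      rw [mem_insert] at hσ
      rcases hσ with rfl | hσ
      · exact hF
      · exact hc F hF σ (h5 σ hσ)
    · intro σ hσ
      rw [mem_insert] at hσ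
      rcases hσ with rfl | hσ
      · exact hne
      · exact h2 σ hσ
    · intro σ hσ τ hτ
      rw [mem_insert] at hσ hτ
      rcases hσ with rfl | hσ
      · rcases hτ with rfl | hτ
        · exact Or.inl subset_rfl
        · exact Or.inr (h5 τ hτ)
      · rcases hτ with rfl | hτ
        · exact Or.inl (h5 σ hσ)
        · exact h3 σ hσ τ hτ
    · rw [Finset.sup_insert]
      apply le_antisymm
      · apply sup_le le_rfl
        exact Finset.sup_le (fun σ hσ => h5 σ hσ)
      · exact le_sup_left

lemma wT_insert {j : ℕ} {T : Finset ℕ} (hT : T ⊆ range j) (m : ℕ) :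
    wT (j + 1 + m) (insert j T) = wT j T * lb * (la - lb) ^ m := by
  induction m with
  | zero =>
    rw [add_zero, wT_succ, if_pos (mem_insert_self _ _), pow_zero, mul_one]
    congr 1
    apply wT_congr
    intro i hi
    rw [mem_insert]
    constructor
    · rintro (h | h)
      · omega
      · exact h
    · exact Or.inr
  | succ m ih =>
    rw [← add_assoc, wT_succ, ih, if_neg, pow_succ, mul_assoc]
    · rw [mem_insert]
      rintro (h | h)
      · omega
      · have := hT h
        rw [mem_range] at this
        omega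

lemma trans_sum {n j : ℕ} {F : Finset (Fin n)} (hF : F.card = j + 1) :
    ∑ C ∈ allch F.ssubsets, wT j (dm C) = ∑ C ∈ allch (bd j), wT j (dm C) := by
  set φ : Fin (j + 1) ↪ Fin n := (F.orderEmbOfFin hF).toEmbedding with hφ
  have hφu : (univ : Finset (Fin (j + 1))).map φ = F := by
    rw [hφ]; exact F.map_orderEmbOfFin_univ hF
  have hinj : Function.Injective (fun σ : Finset (Fin (j + 1)) => σ.map φ) := map_injective φ
  symm
  apply Finset.sum_nbij (fun C => C.image (fun σ => σ.map φ))
  · intro C hC
    rw [mem_allch] at hC ⊢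
    obtain ⟨h1, h2, h3⟩ := hC
    refine ⟨?_, ?_, ?_⟩
    · intro τ hτ
      rw [mem_image] at hτ
      obtain ⟨σ, hσ, rfl⟩ := hτ
      rw [mem_ssubsets, ← hφu]
      have h4 := h1 hσ
      unfold bd at h4
      rw [mem_filter] at h4
      have h5 : σ ⊂ univ := lt_of_le_of_ne (subset_univ σ) h4.2
      exact map_ssubset_map.2 h5
    · intro τ hτ
      rw [mem_image] at hτ
      obtain ⟨σ, hσ, rfl⟩ := hτ
      exact (h2 σ hσ).map
    · intro τ hτ τ' hτ'
      rw [mem_image] at hτ hτ'
      obtain ⟨σ, hσ, rfl⟩ := hτ
      obtain ⟨σ', hσ', rfl⟩ := hτ'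
      rcases h3 σ hσ σ' hσ' with h | h
      · exact Or.inl (map_subset_map.2 h)
      · exact Or.inr (map_subset_map.2 h)
  · intro C _ C' _ h
    exact Finset.image_injective hinj h
  · intro D hD
    rw [mem_coe, mem_allch] at hD
    obtain ⟨h1, h2, h3⟩ := hD
    have key : ∀ τ ∈ D, (univ.filter (fun i => φ i ∈ τ)).map φ = τ := by
      intro τ hτ
      have h4 := mem_ssubsets.1 (h1 hτ)
      ext x
      rw [mem_map]
      constructor
      · rintro ⟨i, hi, rfl⟩
        exact (mem_filter.1 hi).2
      · intro hx
        have h5 : x ∈ F := h4.1 hx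
        rw [← hφu, mem_map] at h5
        obtain ⟨i, _, rfl⟩ := h5
        exact ⟨i, mem_filter.2 ⟨mem_univ _, hx⟩, rfl⟩
    refine ⟨univ.filter (fun σ => σ.map φ ∈ D), ?_, ?_⟩
    · rw [mem_coe, mem_allch]
      refine ⟨?_, ?_, ?_⟩
      · intro σ hσ
        have h4 := (mem_filter.1 hσ).2
        unfold bd
        rw [mem_filter]
        refine ⟨mem_univ _, ?_⟩
        rintro rfl
        rw [hφu] at h4
        have h5 := mem_ssubsets.1 (h1 h4)
        exact absurd rfl h5.ne
      · intro σ hσ
        have h4 := (mem_filter.1 hσ).2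
        exact map_nonempty.1 (h2 _ h4)
      · intro σ hσ τ hτ
        have h4 := (mem_filter.1 hσ).2
        have h5 := (mem_filter.1 hτ).2
        rcases h3 _ h4 _ h5 with h | h
        · exact Or.inl (map_subset_map.1 h)
        · exact Or.inr (map_subset_map.1 h)
    · ext τ
      simp only [mem_image, mem_filter, mem_univ, true_and]
      constructor
      · rintro ⟨σ, hσ, rfl⟩
        exact hσ
      · intro hτ
        exact ⟨_, by rw [key τ hτ]; exact hτ, key τ hτ⟩
  · intro C _
    congr 1
    unfold dm
    rw [Finset.image_image]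
    apply Finset.image_congr
    intro σ _
    simp

lemma fiber_sum {n d : ℕ} {K : Finset (Finset (Fin n))}
    (hc : ∀ σ ∈ K, ∀ τ : Finset (Fin n), τ ⊆ σ → τ ∈ K) (hd : ∀ σ ∈ K, σ.card ≤ d)
    {F : Finset (Fin n)} {j : ℕ} (hF : F ∈ K) (hj : F.card = j + 1) :
    ∑ C ∈ (allch K).filter (fun C => C.sup id = F), wT d (dm C) =
      abIndex (bd j) j * lb * (la - lb) ^ (d - 1 - j) := by
  have hne : F.Nonempty := card_pos.1 (by omega)
  rw [fiber hc hF hne, Finset.sum_image]
  · have hbd : ∀ σ ∈ bd j, σ.card ≤ j := by
      intro σ hσ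
      unfold bd at hσ
      rw [mem_filter] at hσ
      have h5 : σ ⊂ univ := lt_of_le_of_ne (subset_univ σ) hσ.2
      have h6 := card_lt_card h5
      rw [card_univ, Fintype.card_fin] at h6
      omega
    rw [abIndex_chains hbd, ← trans_sum hj, Finset.sum_mul, Finset.sum_mul]
    apply Finset.sum_congr rfl
    intro C hC
    rw [mem_allch] at hC
    have e1 : dm (insert F C) = insert j (dm C) := by
      unfold dm
      rw [Finset.image_insert, hj]
      rfl
    have e2 : dm C ⊆ range j := by
      intro i hi
      unfold dm at hi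
      rw [mem_image] at hi
      obtain ⟨σ, hσ, rfl⟩ := hi
      have h1 := card_lt_card (mem_ssubsets.1 (hC.1 hσ))
      have h2 := card_pos.2 (hC.2.1 σ hσ)
      rw [mem_range]
      omega
    have h7 := hd F hF
    have e3 : d = j + 1 + (d - 1 - j) := by omega
    rw [e1]
    conv_lhs => rw [e3]
    rw [wT_insert e2]
  · intro C hC C' hC' h
    rw [mem_coe, mem_allch] at hC hC'
    have hn : ∀ D : Finset (Finset (Fin n)), D ⊆ F.ssubsets → F ∉ D := by
      intro D hD hF2
      exact absurd rfl (mem_ssubsets.1 (hD hF2)).ne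
    have h1 : (insert F C).erase F = (insert F C').erase F := by rw [h]
    rwa [erase_insert (hn C hC.1), erase_insert (hn C' hC'.1)] at h1

end T4aux

open T4aux in
theorem ab_top {n d : ℕ} {K : Finset (Finset (Fin n))} (h0 : ∅ ∈ K)
    (hc : ∀ σ ∈ K, ∀ τ : Finset (Fin n), τ ⊆ σ → τ ∈ K) (hd : ∀ σ ∈ K, σ.card ≤ d) :
    abIndex K d = (la - lb) ^ d + ∑ j ∈ range d,
      ((K.filter (fun σ => σ.card = j + 1)).card : ℤ) •
        (abIndex (bd j) j * lb * (la - lb) ^ (d - 1 - j)) := by
  have hmap : ∀ C ∈ allch K, C.sup id ∈ K := by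
    intro C hC
    rw [mem_allch] at hC
    rcases sup_mem_chain hC.2.2 with h | h
    · rw [h]; exact h0
    · exact hC.1 h
  rw [abIndex_chains hd, ← Finset.sum_fiberwise_of_maps_to hmap]
  have hsplit : K = insert ∅ ((range d).biUnion (fun j => K.filter (fun σ => σ.card = j + 1))) := by
    ext σ
    simp only [mem_insert, mem_biUnion, mem_filter, mem_range]
    constructor
    · intro h
      rcases Nat.eq_zero_or_pos σ.card with h1 | h1
      · left; exact card_eq_zero.1 h1
      · right
        have h2 := hd σ h
        exact ⟨σ.card - 1, by omega, h, by omega⟩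
    · rintro (rfl | ⟨j, _, h, _⟩)
      · exact h0
      · exact h
  have hsum : ∀ g : Finset (Fin n) → AB, ∑ F ∈ K, g F = g ∅ +
      ∑ j ∈ range d, ∑ F ∈ K.filter (fun σ => σ.card = j + 1), g F := by
    intro g
    conv_lhs => rw [hsplit]
    rw [Finset.sum_insert, Finset.sum_biUnion]
    · intro i _ j _ hij
      rw [Function.onFun, Finset.disjoint_left]
      intro σ h1 h2
      have h3 := (mem_filter.1 h1).2
      have h4 := (mem_filter.1 h2).2
      apply hij
      omega
    · intro h
      simp only [mem_biUnion, mem_filter, card_empty] at h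
      obtain ⟨j, _, _, h⟩ := h
      omega
  rw [hsum]
  congr 1
  · have e : (allch K).filter (fun C => C.sup id = (∅ : Finset (Fin n))) = {∅} := by
      ext C
      rw [mem_filter, mem_allch, mem_singleton]
      constructor
      · rintro ⟨⟨h1, h2, h3⟩, h4⟩
        by_contra hne
        obtain ⟨σ, hσ⟩ := nonempty_iff_ne_empty.2 hne
        have h5 : σ ≤ C.sup id := Finset.le_sup (f := id) hσ
        rw [h4] at h5
        have h6 : σ = ∅ := subset_empty.1 h5
        exact (h2 σ hσ).ne_empty h6
      · rintro rfl
        refine ⟨⟨empty_subset _, ?_, ?_⟩, ?_⟩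
        · intro σ h; simp at h
        · intro σ h; simp at h
        · simp
    rw [e, Finset.sum_singleton]
    unfold wT dm
    simp
  · apply Finset.sum_congr rfl
    intro j _
    rw [Finset.sum_congr rfl (fun F hF => fiber_sum hc hd (mem_filter.1 hF).1 (mem_filter.1 hF).2),
      Finset.sum_const]
    simp

end Pool.Agent.H861.CX
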