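import Pool.Agent.H861.GL.Defs

/-!
# CX/T5: the f-numbers from the h-numbers

`hP K d = ∑ σ ∈ K, X ^ |σ| * (1 - X) ^ (d - |σ|)` (GL/Defs.lean). So
`(hP K d).coeff i = ∑_(k ≤ i) f_k (-1)^(i-k) (d-k).choose (i-k)` where `f_k` is the number of faces
with `k` elements (`k ≤ d`), and
`∑_(i ≤ j) (d-i).choose (j-i) (-1)^(i-k) (d-k).choose (i-k) = [j = k]` for `k ≤ j ≤ d`
(`(d-k).choose (i-k) * (d-i).choose (j-i) = (d-k).choose (j-k) * (j-k).choose (i-k)` and the alternating sum of
binomials). It is enough to treat a single `k`: by linearity reduce to the polynomial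
`X ^ k * (1 - X) ^ (d - k)`.
-/

set_option autoImplicit false

namespace Pool.Agent.H861.CX

open Finset

namespace T5aux

open Polynomial

/-- the homogenisation `∑ P_i X ^ i (1 + X) ^ (d - i)` -/
noncomputable def G (d : ℕ) (P : ℤ[X]) : ℤ[X] :=
  ∑ i ∈ range (d + 1), C (P.coeff i) * (X ^ i * (1 + X) ^ (d - i))

theorem G_coeff (d j : ℕ) (hj : j ≤ d) (P : ℤ[X]) : (G d P).coeff j =
    ∑ i ∈ range (j + 1), ((d - i).choose (j - i) : ℤ) * P.coeff i := by
  unfold G
  rw [finsetSum_coeff]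
  have h1 : ∀ i ∈ range (d + 1), (C (P.coeff i) * (X ^ i * (1 + X) ^ (d - i)) : ℤ[X]).coeff j =
      if i < j + 1 then ((d - i).choose (j - i) : ℤ) * P.coeff i else 0 := by
    intro i _
    rw [coeff_C_mul, coeff_X_pow_mul']
    by_cases h : i ≤ j
    · rw [if_pos h, if_pos (by omega), coeff_one_add_X_pow, mul_comm]
    · rw [if_neg h, if_neg (by omega), mul_zero]
  rw [sum_congr rfl h1, ← sum_filter]
  apply sum_congr _ (fun _ _ => rfl)
  ext i
  simp only [mem_filter, mem_range]
  omega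

theorem G_step (d : ℕ) (P : ℤ[X]) (hP : P.coeff (d + 1) = 0) :
    G (d + 1) (P * (1 - X)) = G d P := by
  have h1 : G (d + 1) P = (1 + X) * G d P := by
    unfold G
    rw [sum_range_succ, hP, C_0, zero_mul, add_zero, mul_sum]
    refine sum_congr rfl fun i hi => ?_
    rw [mem_range] at hi
    rw [show d + 1 - i = (d - i) + 1 by omega, pow_succ]
    ring
  have h2 : G (d + 1) (P * X) = X * G d P := by
    unfold G
    rw [sum_range_succ', mul_coeff_zero, coeff_X_zero, mul_zero, C_0, zero_mul, add_zero, mul_sum]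
    refine sum_congr rfl fun i hi => ?_
    rw [mem_range] at hi
    rw [coeff_mul_X, show d + 1 - (i + 1) = d - i by omega, pow_succ]
    ring
  have h3 : G (d + 1) (P * (1 - X)) = G (d + 1) P - G (d + 1) (P * X) := by
    unfold G
    rw [← sum_sub_distrib]
    refine sum_congr rfl fun i _ => ?_
    rw [mul_sub, mul_one, coeff_sub, C_sub]
    ring
  rw [h3, h1, h2]
  ring

theorem G_mono (k m : ℕ) : G (k + m) (X ^ k * (1 - X) ^ m) = X ^ k := by
  induction m with
  | zero =>
    rw [pow_zero, mul_one, add_zero]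
    unfold G
    rw [sum_range_succ, coeff_X_pow_self, Nat.sub_self, pow_zero, C_1, one_mul, mul_one]
    rw [sum_eq_zero, zero_add]
    intro i hi
    rw [mem_range] at hi
    rw [coeff_X_pow, if_neg (by omega), C_0, zero_mul]
  | succ m ih =>
    rw [pow_succ, ← mul_assoc, ← add_assoc, G_step, ih]
    apply coeff_eq_zero_of_natDegree_lt
    have h1 : ((1 - X : ℤ[X]) ^ m).natDegree ≤ m := by
      refine (natDegree_pow_le).trans ?_
      have : (1 - X : ℤ[X]).natDegree ≤ 1 := by
        rw [show (1 - X : ℤ[X]) = -(X - C 1) by rw [C_1]; ring, natDegree_neg, natDegree_X_sub_C]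
      calc m * (1 - X : ℤ[X]).natDegree ≤ m * 1 := Nat.mul_le_mul_left _ this
        _ = m := mul_one m
    have h2 : (X ^ k * (1 - X : ℤ[X]) ^ m).natDegree ≤ k + m := by
      refine natDegree_mul_le.trans ?_
      rw [natDegree_X_pow]
      omega
    omega

theorem key (d j k : ℕ) (hj : j ≤ d) (hk : k ≤ d) :
    ∑ i ∈ range (j + 1), ((d - i).choose (j - i) : ℤ) *
      (X ^ k * (1 - X) ^ (d - k) : ℤ[X]).coeff i = if k = j then 1 else 0 := by
  rw [← G_coeff d j hj]
  have h := G_mono k (d - k)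
  rw [show k + (d - k) = d by omega] at h
  rw [h, coeff_X_pow]
  by_cases h1 : k = j
  · rw [if_pos h1, if_pos h1.symm]
  · rw [if_neg h1, if_neg (Ne.symm h1)]

end T5aux

theorem f_of_h {n d : ℕ} {K : Finset (Finset (Fin n))} (hd : ∀ σ ∈ K, σ.card ≤ d) (j : ℕ)
    (hj : j ≤ d) : ((K.filter (fun σ => σ.card = j)).card : ℤ) =
      ∑ i ∈ range (j + 1), ((d - i).choose (j - i) : ℤ) * (Pool.Agent.H861.GL.hP K d).coeff i := by
  unfold Pool.Agent.H861.GL.hP
  simp only [Polynomial.finsetSum_coeff, mul_sum]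
  rw [sum_comm]
  rw [sum_congr rfl fun σ hσ => T5aux.key d j σ.card hj (hd σ hσ)]
  rw [card_filter]
  push_cast
  rfl

end Pool.Agent.H861.CX
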