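import Pool.Agent.H861.CX.T2
import Pool.Agent.H861.CX.T4
import Pool.Agent.H861.CX.T5

/-!
# CX/T6: the ab-index in terms of the h-numbers

PAPER PROOF. (T2, T4, T5 are proved elsewhere.) Write `b = lb`, `e = la - lb`, `S_j = SA D j`.
(1) `abIndex (bd j) j = S_j` by strong induction on `j`: `ab_top` for `bd j` (faces with `k + 1` elements,
`k < j`: all subsets, `(j+1).choose (k+1)` of them) and `simplex_rec`.
(2) `abIndex K d = e^d + ∑_(j<d) f_j • (S_j * b * e^(d-1-j))`, `f_j` the number of faces with `j + 1`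
elements, by `ab_top` and (1).
(3) For `d ≥ 1`: `E D d 0 = S_(d-1) * la = S_(d-1) * e + S_(d-1) * b = e^d + ∑_(j<d) d.choose (j+1) •
(S_j * b * e^(d-1-j))` by `simplex_rec` with `m = d - 1`; and for `1 ≤ i ≤ d`:
`E D d i = ∑_(j = i-1)^(d-1) (d-i).choose (j+1-i) • (S_j * b * e^(d-1-j))` (`j = i - 1 + k`).
(4) Compare coefficients: `f_j = ∑_(i ≤ j+1) (d-i).choose (j+1-i) h_i` (`f_of_h` with `j + 1`), and
`h_0 = 1` (`f_of_h` with `j = 0`: the number of faces with no element is `1` as `∅ ∈ K`).
`d = 0` is easy: `abIndex K 0 = 1` by `ab_top`.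
-/

set_option autoImplicit false

namespace Pool.Agent.H861.CX

open Finset

namespace T6aux

theorem bd_card (j k : ℕ) (hk : k < j) :
    ((bd j).filter (fun σ => σ.card = k + 1)).card = (j + 1).choose (k + 1) := by
  have h : (bd j).filter (fun σ => σ.card = k + 1) = powersetCard (k + 1) univ := by
    ext σ
    simp only [bd, mem_filter, mem_univ, true_and, mem_powersetCard, subset_univ]
    constructor
    · rintro ⟨_, h⟩
      exact h
    · intro h
      refine ⟨?_, h⟩
      rintro rfl
      rw [card_univ, Fintype.card_fin] at h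
      omega
  rw [h, card_powersetCard, card_univ, Fintype.card_fin]

theorem h_zero {n d : ℕ} {K : Finset (Finset (Fin n))} (h0 : ∅ ∈ K)
    (hd : ∀ σ ∈ K, σ.card ≤ d) : (Pool.Agent.H861.GL.hP K d).coeff 0 = 1 := by
  have h := f_of_h hd 0 (Nat.zero_le d)
  have e : K.filter (fun σ => σ.card = 0) = {∅} := by
    ext σ
    simp only [mem_filter, card_eq_zero, mem_singleton]
    constructor
    · exact fun h => h.2
    · rintro rfl
      exact ⟨h0, rfl⟩
  rw [e] at h
  simpa using h.symm

noncomputable def W (D : AB → AB) (m j : ℕ) : AB := SA D j * lb * (la - lb) ^ (m - j)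

def cc (m i j : ℕ) : ℤ := if i ≤ j + 1 then ((m + 1 - i).choose (j + 1 - i) : ℤ) else 0

theorem E_zero' {D : AB → AB} (hD : IsDer D) (m : ℕ) :
    E D (m + 1) 0 = (la - lb) ^ (m + 1) + ∑ j ∈ range (m + 1), cc m 0 j • W D m j := by
  have e1 : E D (m + 1) 0 = SA D m * (la - lb) + SA D m * lb := by
    unfold E
    rw [if_pos rfl, if_neg (Nat.succ_ne_zero m), Nat.add_sub_cancel, mul_sub, sub_add_cancel]
  have e2 : SA D m * (la - lb) = (la - lb) ^ (m + 1) + ∑ j ∈ range m, cc m 0 j • W D m j := by
    conv_lhs => rw [simplex_rec hD m]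
    rw [add_mul, ← pow_succ, sum_mul]
    congr 1
    refine sum_congr rfl fun k hk => ?_
    rw [mem_range] at hk
    unfold cc W
    rw [if_pos (Nat.zero_le _), smul_mul_assoc, mul_assoc, ← pow_succ,
      show m - 1 - k + 1 = m - k by omega]
    simp only [Nat.sub_zero]
  have e3 : cc m 0 m • W D m m = SA D m * lb := by
    unfold cc W
    rw [if_pos (Nat.zero_le _), Nat.sub_zero, Nat.choose_self, Nat.sub_self, pow_zero,
      mul_one, Nat.cast_one, one_smul]
  rw [e1, sum_range_succ, e2, e3, add_assoc]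

theorem E_pos {D : AB → AB} (m i : ℕ) (h1 : 1 ≤ i) (h2 : i ≤ m + 1) :
    E D (m + 1) i = ∑ j ∈ range (m + 1), cc m i j • W D m j := by
  obtain ⟨p, rfl⟩ : ∃ p, i = p + 1 := ⟨i - 1, by omega⟩
  have hr : m + 1 = p + (m + 1 - p) := by omega
  have e : ∑ j ∈ range (m + 1), cc m (p + 1) j • W D m j =
      ∑ k ∈ range (m + 1 - p), cc m (p + 1) (p + k) • W D m (p + k) := by
    conv_lhs => rw [hr]
    rw [sum_range_add]
    have hz' : ∑ x ∈ range p, cc m (p + 1) x • W D m x = 0 := by
      refine sum_eq_zero fun x hx => ?_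
      rw [mem_range] at hx
      unfold cc
      rw [if_neg (by omega), zero_smul]
    rw [hz', zero_add]
  rw [e]
  unfold E
  rw [if_neg (Nat.succ_ne_zero p), show m + 1 - (p + 1) + 1 = m + 1 - p by omega]
  refine sum_congr rfl fun k hk => ?_
  unfold cc W
  rw [if_pos (by omega), show p + k + 1 - (p + 1) = k by omega, Nat.add_sub_cancel,
    show m + 1 - (p + 1) - k = m - (p + k) by omega]

end T6aux

open T6aux

theorem simplex_ab {D : AB → AB} (hD : IsDer D) (j : ℕ) : abIndex (bd j) j = SA D j := by
  induction j using Nat.strong_induction_on with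
  | _ j ih =>
    have a1 : ∅ ∈ bd j := by
      simp only [bd, mem_filter, mem_univ, true_and]
      intro h
      have := congrArg Finset.card h
      rw [card_univ, Fintype.card_fin, card_empty] at this
      omega
    have a2 : ∀ σ ∈ bd j, ∀ τ : Finset (Fin (j + 1)), τ ⊆ σ → τ ∈ bd j := by
      intro σ hσ τ hτ
      simp only [bd, mem_filter, mem_univ, true_and] at hσ ⊢
      rintro rfl
      exact hσ (univ_subset_iff.mp hτ)
    have a3 : ∀ σ ∈ bd j, σ.card ≤ j := by
      intro σ hσ
      simp only [bd, mem_filter, mem_univ, true_and] at hσ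
      have := (card_lt_iff_ne_univ σ).2 hσ
      rw [Fintype.card_fin] at this
      omega
    rw [ab_top a1 a2 a3, simplex_rec hD j]
    congr 1
    refine sum_congr rfl fun k hk => ?_
    rw [mem_range] at hk
    rw [bd_card j k hk, ih k hk]

theorem ab_h {D : AB → AB} (hD : IsDer D) {n d : ℕ} {K : Finset (Finset (Fin n))} (h0 : ∅ ∈ K)
    (hc : ∀ σ ∈ K, ∀ τ : Finset (Fin n), τ ⊆ σ → τ ∈ K) (hd : ∀ σ ∈ K, σ.card ≤ d) :
    abIndex K d = ∑ i ∈ range (d + 1), (Pool.Agent.H861.GL.hP K d).coeff i • E D d i := by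
  have hz := h_zero h0 hd
  obtain _ | m := d
  · rw [ab_top h0 hc hd, range_zero, sum_empty, add_zero, pow_zero, zero_add, sum_range_one, hz,
      one_smul]
    unfold E
    rw [if_pos rfl, if_pos rfl]
  · rw [ab_top h0 hc hd]
    have hE : ∀ i ∈ range (m + 1 + 1), (Pool.Agent.H861.GL.hP K (m + 1)).coeff i • E D (m + 1) i =
        (if i = 0 then (la - lb) ^ (m + 1) else 0) + ∑ j ∈ range (m + 1),
          ((Pool.Agent.H861.GL.hP K (m + 1)).coeff i * cc m i j) • W D m j := by
      intro i hi
      rw [mem_range] at hi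
      rcases Nat.eq_zero_or_pos i with rfl | hp
      · rw [E_zero' hD, hz, if_pos rfl, one_smul]
        congr 1
        refine sum_congr rfl fun j _ => ?_
        rw [one_mul]
      · rw [E_pos m i hp (by omega), if_neg (by omega), zero_add, smul_sum]
        refine sum_congr rfl fun j _ => ?_
        rw [smul_smul]
    rw [sum_congr rfl hE, sum_add_distrib, sum_comm]
    congr 1
    · simp
    · refine sum_congr rfl fun j hj => ?_
      rw [mem_range] at hj
      rw [← sum_smul, f_of_h hd (j + 1) (by omega), simplex_ab hD]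
      have e : ∑ i ∈ range (m + 1 + 1), (Pool.Agent.H861.GL.hP K (m + 1)).coeff i * cc m i j =
          ∑ i ∈ range (j + 1 + 1), ((m + 1 - i).choose (j + 1 - i) : ℤ) *
            (Pool.Agent.H861.GL.hP K (m + 1)).coeff i := by
        have hs : range (j + 1 + 1) ⊆ range (m + 1 + 1) := by
          intro x hx
          rw [mem_range] at hx ⊢
          omega
        rw [← sum_subset hs]
        · refine sum_congr rfl fun i hi => ?_
          rw [mem_range] at hi
          unfold cc
          rw [if_pos (by omega), mul_comm]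
        · intro i _ hi
          rw [mem_range] at hi
          unfold cc
          rw [if_neg (by omega), mul_zero]
      rw [e]
      unfold W
      rw [show m + 1 - 1 - j = m - j by omega]

end Pool.Agent.H861.CX
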