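import Pool.Agent.H861.CX.Defs

/-!
# CX/T8: uniqueness of the cd-polynomial (by helper134)

PAPER PROOF. (1) `la * P + lb * Q = 0` implies `P = 0` and `Q = 0` in the free algebra (Fox
derivatives, from a homomorphism to the two by two matrices over the free algebra).
(2) Induction on `m` (two steps): `ev (m+2) x = (la+lb) * P + (la*lb+lb*la) * Q =
la * (P + lb * Q) + lb * (P + la * Q)` with `P = ev (m+1) (fun t => x (false :: t))`,
`Q = ev m (fun t => x (true :: t))`. If it is `0` then `P + lb * Q = 0 = P + la * Q`, so
`la * Q - lb * Q = 0`, so `Q = 0` by (1), and `P = 0`.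
-/

set_option autoImplicit false

namespace Pool.Agent.H861.CX

open Finset

namespace T8aux

/-- the homomorphism whose upper right entry is a Fox derivative -/
noncomputable def th (c : Bool) : AB →ₐ[ℤ] Matrix (Fin 2) (Fin 2) AB :=
  FreeAlgebra.lift ℤ (fun i => !![0, if i = c then 1 else 0; 0, FreeAlgebra.ι ℤ i])

theorem th_ι (c i : Bool) : th c (FreeAlgebra.ι ℤ i) =
    !![0, if i = c then 1 else 0; 0, FreeAlgebra.ι ℤ i] := by
  unfold th
  rw [FreeAlgebra.lift_ι_apply]

theorem th_low (c : Bool) (x : AB) : th c x 1 0 = 0 ∧ th c x 1 1 = x := by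
  induction x using FreeAlgebra.induction with
  | grade0 r =>
    rw [AlgHom.commutes, Matrix.algebraMap_matrix_apply, Matrix.algebraMap_matrix_apply]
    exact ⟨if_neg (by decide), if_pos rfl⟩
  | grade1 i =>
    rw [th_ι]
    exact ⟨rfl, rfl⟩
  | mul x y hx hy =>
    rw [map_mul, Matrix.mul_apply, Matrix.mul_apply, Fin.sum_univ_two, Fin.sum_univ_two,
      hx.1, hx.2, hy.1, hy.2]
    exact ⟨by rw [zero_mul, mul_zero, add_zero], by rw [zero_mul, zero_add]⟩
  | add x y hx hy =>
    rw [map_add, Matrix.add_apply, Matrix.add_apply, hx.1, hx.2, hy.1, hy.2]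
    exact ⟨add_zero 0, rfl⟩

theorem th_mul (c i : Bool) (x : AB) :
    th c (FreeAlgebra.ι ℤ i * x) 0 1 = if i = c then x else 0 := by
  rw [map_mul, Matrix.mul_apply, Fin.sum_univ_two, (th_low c x).2, th_ι]
  show 0 * _ + (if i = c then 1 else 0) * x = _
  rw [zero_mul, zero_add]
  split_ifs
  · exact one_mul x
  · exact zero_mul x

theorem cancel {P Q : AB} (h : la * P + lb * Q = 0) : P = 0 ∧ Q = 0 := by
  constructor
  · have h1 := congrArg (fun z => th false z 0 1) h
    simp only [map_add, Matrix.add_apply, la, lb, th_mul, map_zero, Matrix.zero_apply] at h1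
    simpa using h1
  · have h1 := congrArg (fun z => th true z 0 1) h
    simp only [map_add, Matrix.add_apply, la, lb, th_mul, map_zero, Matrix.zero_apply] at h1
    simpa using h1

theorem cdw_false (w : List Bool) : cdw (false :: w) = (la + lb) * cdw w := by
  unfold cdw
  rw [List.map_cons, List.prod_cons]
  simp

theorem cdw_true (w : List Bool) : cdw (true :: w) = (la * lb + lb * la) * cdw w := by
  unfold cdw
  rw [List.map_cons, List.prod_cons]
  simp

theorem ev_step (m : ℕ) (x : List Bool → ℤ) :
    ev (m + 2) x = (la + lb) * ev (m + 1) (fun t => x (false :: t)) +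
      (la * lb + lb * la) * ev m (fun t => x (true :: t)) := by
  have h0 : wd (m + 2) = (wd (m + 1)).image (List.cons false) ∪ (wd m).image (List.cons true) := rfl
  have hd : Disjoint ((wd (m + 1)).image (List.cons false)) ((wd m).image (List.cons true)) := by
    rw [Finset.disjoint_left]
    intro w h1 h2
    rw [Finset.mem_image] at h1 h2
    obtain ⟨u, _, hu⟩ := h1
    obtain ⟨v, _, hv⟩ := h2
    rw [← hu] at hv
    simp at hv
  unfold ev
  rw [h0, Finset.sum_union hd, Finset.sum_image, Finset.sum_image, Finset.mul_sum, Finset.mul_sum]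
  · congr 1
    · refine Finset.sum_congr rfl fun w _ => ?_
      rw [cdw_false, mul_smul_comm]
    · refine Finset.sum_congr rfl fun w _ => ?_
      rw [cdw_true, mul_smul_comm]
  · intro u _ v _ huv
    exact (List.cons.inj huv).2
  · intro u _ v _ huv
    exact (List.cons.inj huv).2

theorem smul_one_eq_zero {n : ℤ} (h : n • (1 : AB) = 0) : n = 0 := by
  have h1 : algebraMap ℤ AB n = algebraMap ℤ AB 0 := by
    rw [zsmul_eq_mul, mul_one] at h
    rw [map_zero, eq_intCast]
    exact h
  exact FreeAlgebra.algebraMap_leftInverse.injective h1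

end T8aux

open T8aux

theorem ev_inj (m : ℕ) (x : List Bool → ℤ) (h : ev m x = 0) : ∀ w ∈ wd m, x w = 0 := by
  induction m using Nat.strong_induction_on generalizing x with
  | _ m ih =>
    rcases m with _ | _ | m
    · intro w hw
      have hw' : w = [] := by
        have : w ∈ ({[]} : Finset (List Bool)) := hw
        exact Finset.mem_singleton.1 this
      subst hw'
      have h1 : ev 0 x = x [] • (1 : AB) := by
        unfold ev
        show ∑ w ∈ ({[]} : Finset (List Bool)), _ = _
        rw [Finset.sum_singleton]
        rfl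
      rw [h1] at h
      exact smul_one_eq_zero h
    · intro w hw
      have hw' : w = [false] := by
        have : w ∈ ({[false]} : Finset (List Bool)) := hw
        exact Finset.mem_singleton.1 this
      subst hw'
      have h1 : ev 1 x = la * (x [false] • (1 : AB)) + lb * (x [false] • (1 : AB)) := by
        unfold ev
        show ∑ w ∈ ({[false]} : Finset (List Bool)), _ = _
        rw [Finset.sum_singleton, cdw_false]
        have h2 : cdw [] = 1 := rfl
        rw [h2, mul_smul_comm, mul_smul_comm, add_mul, smul_add]
      have h' : ev 1 x = 0 := h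
      rw [h1] at h'
      exact smul_one_eq_zero (cancel h').1
    · have h1 := ev_step m x
      have h' : ev (m + 2) x = 0 := h
      rw [h'] at h1
      set P := ev (m + 1) (fun t => x (false :: t)) with hP
      set Q := ev m (fun t => x (true :: t)) with hQ
      have h2 : la * (P + lb * Q) + lb * (P + la * Q) = 0 := by
        rw [h1]
        noncomm_ring
      obtain ⟨h3, h4⟩ := cancel h2
      have h5 : la * Q + lb * (-Q) = 0 := by
        have : la * Q + lb * (-Q) = (P + la * Q) - (P + lb * Q) := by
          noncomm_ring
        rw [this, h3, h4, sub_zero]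
      have h6 : Q = 0 := (cancel h5).1
      have h7 : P = 0 := by
        rw [h6, mul_zero, add_zero] at h3
        exact h3
      have h8 := ih (m + 1) (by omega) (fun t => x (false :: t)) h7
      have h9 := ih m (by omega) (fun t => x (true :: t)) h6
      intro w hw
      have hw' : w ∈ (wd (m + 1)).image (List.cons false) ∪ (wd m).image (List.cons true) := hw
      rw [Finset.mem_union, Finset.mem_image, Finset.mem_image] at hw'
      rcases hw' with ⟨u, hu, rfl⟩ | ⟨u, hu, rfl⟩
      · exact h8 u hu
      · exact h9 u hu

end Pool.Agent.H861.CX
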