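import Pool.Agent.H861.CX.T1
import Pool.Agent.H861.CX.T3
import Pool.Agent.H861.CX.T6
import Pool.Agent.H861.CX.T8
import Pool.Agent.H861.GL.DB

/-!
# CX/Fin: the inequality for the cd-indices of simplicial spheres
-/

set_option autoImplicit false

namespace Pool.Agent.H861.CX

open Finset Pool.Agent.W555.KS Pool.Agent.Y131.KS

theorem telescope (h : ℕ → ℤ) (m : ℕ) : ∑ i ∈ Icc 1 m, (h i - h (i - 1)) = h m - h 0 := by
  induction m with
  | zero => simp
  | succ m ih =>
    rw [sum_Icc_succ_top (by omega), ih, Nat.add_sub_cancel]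
    ring

theorem key (h : ℕ → ℤ) (Δ : ℕ → ℤ) (d : ℕ) (h0 : h 0 = 1) (hs : ∀ i ≤ d, h i = h (d - i))
    (hg : ∀ i, 1 ≤ i → 2 * i ≤ d → 0 ≤ h i - h (i - 1))
    (hΔ : ∀ i, 1 ≤ i → 2 * i ≤ d → 0 ≤ ∑ l ∈ Icc i (d - i), Δ l) :
    0 ≤ ∑ l ∈ range (d + 1), (h l - 1) * Δ l := by
  have hl : ∀ l ∈ range (d + 1), h l - 1 = ∑ i ∈ Icc 1 (d / 2),
      if i ≤ l ∧ l ≤ d - i then h i - h (i - 1) else 0 := by
    intro l hld
    rw [mem_range] at hld
    rw [← sum_filter]
    by_cases hl2 : 2 * l ≤ d
    · have e : (Icc 1 (d / 2)).filter (fun i => i ≤ l ∧ l ≤ d - i) = Icc 1 l := by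
        ext i
        simp only [mem_filter, mem_Icc]
        omega
      rw [e, telescope, h0]
    · have e : (Icc 1 (d / 2)).filter (fun i => i ≤ l ∧ l ≤ d - i) = Icc 1 (d - l) := by
        ext i
        simp only [mem_filter, mem_Icc]
        omega
      rw [e, telescope, h0, hs l (by omega)]
  rw [sum_congr rfl fun l hl' => by rw [hl l hl', sum_mul]]
  rw [sum_comm]
  refine sum_nonneg fun i hi => ?_
  rw [mem_Icc] at hi
  have e : ∑ l ∈ range (d + 1), (if i ≤ l ∧ l ≤ d - i then h i - h (i - 1) else 0) * Δ l =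
      (h i - h (i - 1)) * ∑ l ∈ Icc i (d - i), Δ l := by
    rw [mul_sum]
    have e1 : Icc i (d - i) = (range (d + 1)).filter (fun l => i ≤ l ∧ l ≤ d - i) := by
      ext l
      simp only [mem_filter, mem_Icc, mem_range]
      omega
    rw [e1, sum_filter]
    refine sum_congr rfl fun l _ => ?_
    split_ifs
    · rfl
    · rw [zero_mul]
  rw [e]
  exact mul_nonneg (hg i hi.1 (by omega)) (hΔ i hi.1 (by omega))

theorem ev_add (m : ℕ) (x y : List Bool → ℤ) :
    ev m (fun w => x w + y w) = ev m x + ev m y := by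
  unfold ev
  rw [← sum_add_distrib]
  exact sum_congr rfl fun w _ => add_smul _ _ _

theorem ev_sub (m : ℕ) (x y : List Bool → ℤ) :
    ev m (fun w => x w - y w) = ev m x - ev m y := by
  unfold ev
  rw [← sum_sub_distrib]
  exact sum_congr rfl fun w _ => sub_smul _ _ _

theorem ev_sum (m : ℕ) {ι : Type} (s : Finset ι) (c : ι → ℤ) (x : ι → List Bool → ℤ) :
    ev m (fun w => ∑ l ∈ s, c l * x l w) = ∑ l ∈ s, c l • ev m (x l) := by
  unfold ev
  simp only [smul_sum, sum_smul]
  rw [sum_comm]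
  exact sum_congr rfl fun l _ => sum_congr rfl fun w _ => by rw [smul_smul]

theorem ev_S {D : AB → AB} (hD : IsDer D) (m : ℕ) : ev m (Sf m) = SA D m := by
  induction m with
  | zero =>
    unfold ev
    simp [wd, Sf, SA, cdw]
  | succ m ih =>
    have e : Sf (m + 1) = fun w => mc (Sf m) w + G (Sf m) w := rfl
    rw [e, ev_add, ev_mc, ev_G hD, ih]
    rfl

theorem ev_iter {D : AB → AB} (hD : IsDer D) (m l : ℕ) (x : List Bool → ℤ) :
    ev (m + l) (G^[l] x) = D^[l] (ev m x) := by
  induction l with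
  | zero => rfl
  | succ l ih =>
    rw [Function.iterate_succ_apply', Function.iterate_succ_apply', ← ih, ← add_assoc, ev_G hD]

theorem ev_Ph {D : AB → AB} (hD : IsDer D) {d l : ℕ} (hl : l < d) :
    ev d (Ph d l) = D^[l] (SA D (d - 1 - l) * (la + lb)) := by
  have e : d = (d - 1 - l + 1) + l := by omega
  have h := ev_iter hD (d - 1 - l + 1) l (mc (Sf (d - 1 - l)))
  rw [← e, ev_mc, ev_S hD] at h
  rw [Ph, if_pos hl, h]

theorem der_one {D : AB → AB} (hD : IsDer D) : D 1 = 0 := by
  have h := hD.2.1 1 1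
  rw [mul_one, mul_one, one_mul] at h
  exact left_eq_add.1 h

theorem SA_sum {D : AB → AB} (hD : IsDer D) (d : ℕ) : SA D (d + 1) =
    ∑ l ∈ range (d + 1), D^[l] (SA D (d - l) * (la + lb)) := by
  have hsum : ∀ (s : Finset ℕ) (f : ℕ → AB), D (∑ l ∈ s, f l) = ∑ l ∈ s, D (f l) := by
    intro s f
    have h0 : D 0 = 0 := by
      have h := hD.1 0 0
      rw [add_zero] at h
      exact left_eq_add.1 h
    exact map_sum (⟨⟨D, h0⟩, hD.1⟩ : AB →+ AB) f s
  induction d with
  | zero =>
    rw [SA, SA, der_one hD]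
    simp [SA]
  | succ d ih =>
    have e : SA D (d + 1 + 1) = SA D (d + 1) * (la + lb) + D (SA D (d + 1)) := rfl
    have e2 : D (SA D (d + 1)) =
        ∑ l ∈ range (d + 1), D (D^[l] (SA D (d - l) * (la + lb))) := by
      conv_lhs => rw [ih]
      exact hsum _ _
    rw [e, e2, sum_range_succ' _ (d + 1), add_comm]
    congr 1
    refine sum_congr rfl fun l _ => ?_
    rw [Function.iterate_succ_apply']
    have e3 : d + 1 - (l + 1) = d - l := by omega
    rw [e3]

theorem mem_wd (m : ℕ) (w : List Bool) :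
    w ∈ wd m ↔ (w.map (fun x => if x then 2 else 1)).sum = m := by
  induction m using Nat.twoStepInduction generalizing w with
  | zero =>
    rcases w with _ | ⟨x, w⟩
    · simp [wd]
    · cases x <;> simp [wd] <;> omega
  | one =>
    rcases w with _ | ⟨x, w⟩
    · simp [wd]
    · rcases w with _ | ⟨y, w⟩
      · cases x <;> simp [wd]
      · cases x <;> cases y <;> simp [wd] <;> omega
  | more m ih1 ih2 =>
    rcases w with _ | ⟨x, w⟩
    · simp [wd]
    · cases x
      · simp only [wd, mem_union, mem_image, List.cons.injEq, Bool.false_eq_true, false_and,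
          and_false, exists_false, or_false, true_and, exists_eq_right, ih2, List.map_cons,
          List.sum_cons, if_false, reduceCtorEq]
        constructor <;> intro h <;> omega
      · simp only [wd, mem_union, mem_image, List.cons.injEq, false_and,
          and_false, exists_false, false_or, true_and, exists_eq_right, ih1, List.map_cons,
          List.sum_cons, if_true, reduceCtorEq, Bool.true_eq_false]
        constructor <;> intro h <;> omega

theorem uniq {m : ℕ} {x y : List Bool → ℤ} (h : ev m x = ev m y) : ∀ w ∈ wd m, x w = y w := by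
  intro w hw
  have h1 : ev m (fun w => x w - y w) = 0 := by rw [ev_sub, h, sub_self]
  have h2 := ev_inj m _ h1 w hw
  linarith

theorem cd_exists {n d : ℕ} {K : Finset (Finset (Fin n))} (hK : HSph K d) (hd : 1 ≤ d) :
    abIndex K d = ev d (fun w => ∑ l ∈ range d, (GL.hP K d).coeff l * Ph d l w) := by
  obtain ⟨D, hD⟩ := exists_der
  rw [ev_sum, ab_h hD hK.cx.1 hK.cx.2 hK.card_le,
    sum_E hD hd (fun i => (GL.hP K d).coeff i) (GL.sym_hP hK).2]
  refine sum_congr rfl fun l hl => ?_
  rw [ev_Ph hD (mem_range.1 hl)]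

theorem simplex_cd {d : ℕ} (hd : 1 ≤ d) :
    abIndex (bd d) d = ev d (fun w => ∑ l ∈ range d, 1 * Ph d l w) := by
  obtain ⟨D, hD⟩ := exists_der
  rw [ev_sum, simplex_ab hD]
  obtain ⟨m, rfl⟩ : ∃ m, d = m + 1 := ⟨d - 1, by omega⟩
  rw [SA_sum hD]
  refine sum_congr rfl fun l hl => ?_
  rw [ev_Ph hD (mem_range.1 hl), one_smul]
  rfl

theorem cd_zero {n : ℕ} {K : Finset (Finset (Fin n))} (h0 : ∅ ∈ K)
    (hc : ∀ σ ∈ K, ∀ τ : Finset (Fin n), τ ⊆ σ → τ ∈ K) (hd : ∀ σ ∈ K, σ.card ≤ 0) :
    abIndex K 0 = ev 0 (fun _ => 1) := by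
  rw [ab_top h0 hc hd]
  unfold ev
  simp [wd, cdw]

theorem simplex_zero : abIndex (bd 0) 0 = ev 0 (fun _ => 1) := by
  refine cd_zero ?_ ?_ ?_
  · simp [bd]
  · intro σ hσ τ hτ
    rw [bd, mem_filter] at hσ ⊢
    refine ⟨mem_univ _, fun h => hσ.2 ?_⟩
    rw [h] at hτ
    exact univ_subset_iff.1 hτ
  · intro σ hσ
    rw [bd, mem_filter] at hσ
    have h1 := card_lt_univ_of_notMem (s := σ) (x := (0 : Fin 1)) (fun h => hσ.2 (by
      ext y
      have hy : y = 0 := Fin.ext (by have := y.isLt; simp at this; simpa using this)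
      rw [hy]
      simp [h]))
    simpa using h1

theorem final {n d : ℕ} {K : Finset (Finset (Fin n))} (hK : HSph K d) (φ ψ : List Bool → ℤ)
    (hφ : abIndex K d = ev d φ) (hψ : abIndex (bd d) d = ev d ψ) (u v : List Bool)
    (huv : (u.map (fun x => if x then 2 else 1)).sum +
      (v.map (fun x => if x then 2 else 1)).sum + 2 = d) :
    ψ (u ++ true :: v) - ψ (u ++ false :: false :: v) ≤
      φ (u ++ true :: v) - φ (u ++ false :: false :: v) := by
  have hd : 1 ≤ d := by omega
  have hw1 : u ++ true :: v ∈ wd d := by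
    rw [mem_wd, List.map_append, List.sum_append, List.map_cons, List.sum_cons, if_pos rfl]
    omega
  have hw2 : u ++ false :: false :: v ∈ wd d := by
    rw [mem_wd, List.map_append, List.sum_append, List.map_cons, List.sum_cons, List.map_cons,
      List.sum_cons, if_neg (by simp)]
    omega
  have h1 := uniq (hφ.symm.trans (cd_exists hK hd))
  have h2 := uniq (hψ.symm.trans (simplex_cd hd))
  rw [h1 _ hw1, h1 _ hw2, h2 _ hw1, h2 _ hw2]
  have hk := key (fun l => (GL.hP K d).coeff l)
    (fun l => Ph d l (u ++ true :: v) - Ph d l (u ++ false :: false :: v)) d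
    (GL.hP_coeff_zero hK) (GL.sym_hP hK).2 (by
      intro i hi hid
      obtain ⟨θ, hθ⟩ := GL.top_bound hK hi (by omega)
      have h3 : (0 : ℤ) ≤ GL.gco (GL.hP K d) i := le_trans (by positivity) hθ
      unfold GL.gco at h3
      rwa [if_neg (by omega)] at h3)
    (by
      intro i hi hid
      rw [sum_sub_distrib]
      exact sub_nonneg.2 (main_ineq hi hid u v))
  rw [sum_range_succ] at hk
  have h0 : ∀ w, Ph d d w = 0 := by
    intro w
    rw [Ph, if_neg (lt_irrefl d)]
    rfl
  rw [h0, h0, sub_self, mul_zero, add_zero] at hk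
  have e : ∑ l ∈ range d, ((GL.hP K d).coeff l - 1) *
      (Ph d l (u ++ true :: v) - Ph d l (u ++ false :: false :: v)) =
      (∑ l ∈ range d, (GL.hP K d).coeff l * Ph d l (u ++ true :: v) -
        ∑ l ∈ range d, (GL.hP K d).coeff l * Ph d l (u ++ false :: false :: v)) -
      (∑ l ∈ range d, 1 * Ph d l (u ++ true :: v) -
        ∑ l ∈ range d, 1 * Ph d l (u ++ false :: false :: v)) := by
    rw [← sum_sub_distrib, ← sum_sub_distrib, ← sum_sub_distrib]
    exact sum_congr rfl fun l _ => by ring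
  linarith

end Pool.Agent.H861.CX
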