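import Pool.Agent.H861.CX.Defs

/-!
# CX/T1: the derivation, and evaluation
-/

set_option autoImplicit false

namespace Pool.Agent.H861.CX

open Finset

namespace T1aux

theorem ev_rec (m : ℕ) (x : List Bool → ℤ) :
    ev (m + 2) x = (la + lb) * ev (m + 1) (fun t => x (false :: t)) +
      (la * lb + lb * la) * ev m (fun t => x (true :: t)) := by
  classical
  have h1 : wd (m + 2) = (wd (m + 1)).image (List.cons false) ∪ (wd m).image (List.cons true) := rfl
  unfold ev
  rw [h1, Finset.sum_union, Finset.sum_image, Finset.sum_image, Finset.mul_sum, Finset.mul_sum]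
  · refine congrArg₂ (· + ·) (Finset.sum_congr rfl fun w _ => ?_)
      (Finset.sum_congr rfl fun w _ => ?_)
    · rw [mul_smul_comm]
      refine congrArg (fun z => x (false :: w) • z) ?_
      unfold cdw
      rw [List.map_cons, List.prod_cons]
      simp
    · rw [mul_smul_comm]
      refine congrArg (fun z => x (true :: w) • z) ?_
      unfold cdw
      rw [List.map_cons, List.prod_cons]
      simp
  · intro a _ b _ h
    exact (List.cons.inj h).2
  · intro a _ b _ h
    exact (List.cons.inj h).2
  · rw [Finset.disjoint_left]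
    intro w hw hw'
    obtain ⟨u, _, hu⟩ := Finset.mem_image.1 hw
    obtain ⟨v, _, hv⟩ := Finset.mem_image.1 hw'
    rw [← hu] at hv
    exact absurd (List.cons.inj hv).1 (by decide)

theorem ev_zero (x : List Bool → ℤ) : ev 0 x = x [] • (1 : AB) := by
  have h1 : wd 0 = {[]} := rfl
  unfold ev
  rw [h1, Finset.sum_singleton]
  rfl

theorem ev_one (x : List Bool → ℤ) : ev 1 x = x [false] • (la + lb : AB) := by
  have h1 : wd 1 = {[false]} := rfl
  unfold ev
  rw [h1, Finset.sum_singleton]
  unfold cdw
  simp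

theorem ev_add (m : ℕ) (x y : List Bool → ℤ) :
    ev m (fun t => x t + y t) = ev m x + ev m y := by
  unfold ev
  rw [← Finset.sum_add_distrib]
  exact Finset.sum_congr rfl fun w _ => add_smul _ _ _

theorem ev_null (m : ℕ) : ev m (fun _ => 0) = 0 := by
  unfold ev
  exact Finset.sum_eq_zero fun w _ => zero_smul _ _

theorem ev_congr (m : ℕ) (x y : List Bool → ℤ) (h : ∀ w ∈ wd m, x w = y w) :
    ev m x = ev m y := by
  unfold ev
  exact Finset.sum_congr rfl fun w hw => by rw [h w hw]

theorem wd_ne (m : ℕ) : ∀ w ∈ wd (m + 1), w ≠ [] := by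
  intro w hw
  cases m with
  | zero =>
    have h1 : wd (0 + 1) = {[false]} := rfl
    rw [h1, Finset.mem_singleton] at hw
    rw [hw]
    simp
  | succ m =>
    have h1 : wd (m + 1 + 1) =
      (wd (m + 1)).image (List.cons false) ∪ (wd m).image (List.cons true) := rfl
    rw [h1, Finset.mem_union] at hw
    rcases hw with hw | hw
    · obtain ⟨u, _, hu⟩ := Finset.mem_image.1 hw
      rw [← hu]
      simp
    · obtain ⟨u, _, hu⟩ := Finset.mem_image.1 hw
      rw [← hu]
      simp

theorem mc_cons (x : List Bool → ℤ) (c : Bool) (w : List Bool) (hw : w ≠ []) :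
    mc x (c :: w) = mc (fun t => x (c :: t)) w := by
  obtain ⟨a, u, rfl⟩ := List.exists_cons_of_ne_nil hw
  unfold mc
  rw [List.getLast?_cons_cons, List.dropLast_cons_cons]

end T1aux

open T1aux

theorem exists_der : ∃ D : AB → AB, IsDer D := by
  classical
  obtain ⟨g, hg⟩ : ∃ g : Bool → AB, g = fun x => if x then la * lb else lb * la := ⟨_, rfl⟩
  obtain ⟨φ, hφ⟩ : ∃ φ : AB →ₐ[ℤ] Matrix (Fin 2) (Fin 2) AB, φ = FreeAlgebra.lift ℤ
    (fun x => !![FreeAlgebra.ι ℤ x, g x; 0, FreeAlgebra.ι ℤ x]) := ⟨_, rfl⟩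
  have hι : ∀ x, φ (FreeAlgebra.ι ℤ x) = !![FreeAlgebra.ι ℤ x, g x; 0, FreeAlgebra.ι ℤ x] :=
    fun x => by rw [hφ, FreeAlgebra.lift_ι_apply]
  have key : ∀ y : AB, φ y 0 0 = y ∧ φ y 1 0 = 0 ∧ φ y 1 1 = y := by
    intro y
    induction y using FreeAlgebra.induction with
    | grade0 r =>
      rw [AlgHom.commutes]
      refine ⟨?_, ?_, ?_⟩
      · rw [Matrix.algebraMap_matrix_apply, if_pos rfl]
      · rw [Matrix.algebraMap_matrix_apply, if_neg (by decide)]
      · rw [Matrix.algebraMap_matrix_apply, if_pos rfl]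
    | grade1 x =>
      rw [hι]
      exact ⟨rfl, rfl, rfl⟩
    | mul a b ha hb =>
      rw [map_mul]
      refine ⟨?_, ?_, ?_⟩
      · rw [Matrix.mul_apply, Fin.sum_univ_two, ha.1, hb.1, hb.2.1, mul_zero, add_zero]
      · rw [Matrix.mul_apply, Fin.sum_univ_two, ha.2.1, hb.2.1, mul_zero, zero_mul, add_zero]
      · rw [Matrix.mul_apply, Fin.sum_univ_two, ha.2.1, ha.2.2, hb.2.2, zero_mul, zero_add]
    | add a b ha hb =>
      rw [map_add]
      refine ⟨?_, ?_, ?_⟩
      · rw [Matrix.add_apply, ha.1, hb.1]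
      · rw [Matrix.add_apply, ha.2.1, hb.2.1, add_zero]
      · rw [Matrix.add_apply, ha.2.2, hb.2.2]
  refine ⟨fun y => φ y 0 1, ?_, ?_, ?_, ?_⟩
  · intro x y
    show φ (x + y) 0 1 = φ x 0 1 + φ y 0 1
    rw [map_add, Matrix.add_apply]
  · intro x y
    show φ (x * y) 0 1 = φ x 0 1 * y + x * φ y 0 1
    rw [map_mul, Matrix.mul_apply, Fin.sum_univ_two, (key x).1, (key y).2.2, add_comm]
  · show φ (FreeAlgebra.ι ℤ false) 0 1 = lb * la
    rw [hι]
    show g false = lb * la
    rw [hg]
    rfl
  · show φ (FreeAlgebra.ι ℤ true) 0 1 = la * lb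
    rw [hι]
    show g true = la * lb
    rw [hg]
    rfl

namespace T1aux

theorem der_zero {D : AB → AB} (hD : IsDer D) : D 0 = 0 := by
  have h := hD.1 0 0
  rw [add_zero] at h
  exact left_eq_add.1 h

theorem der_one {D : AB → AB} (hD : IsDer D) : D 1 = 0 := by
  have h := hD.2.1 1 1
  rw [mul_one, mul_one, one_mul] at h
  exact left_eq_add.1 h

theorem der_smul {D : AB → AB} (hD : IsDer D) (n : ℤ) (x : AB) : D (n • x) = n • D x := by
  have h := map_zsmul (AddMonoidHom.mk' D hD.1) n x
  exact h

theorem der_c {D : AB → AB} (hD : IsDer D) : D (la + lb) = la * lb + lb * la := by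
  rw [hD.1, hD.2.2.1, hD.2.2.2, add_comm]

theorem der_d {D : AB → AB} (hD : IsDer D) :
    D (la * lb + lb * la) = (la + lb) * (la * lb + lb * la) := by
  rw [hD.1, hD.2.1, hD.2.1, hD.2.2.1, hD.2.2.2]
  noncomm_ring

theorem ev_G_aux {D : AB → AB} (hD : IsDer D) (m : ℕ) :
    (∀ x : List Bool → ℤ, ev (m + 1) (G x) = D (ev m x)) ∧
      ∀ x : List Bool → ℤ, ev (m + 2) (G x) = D (ev (m + 1) x) := by
  induction m with
  | zero =>
    refine ⟨fun x => ?_, fun x => ?_⟩
    · show ev 1 (G x) = _
      rw [ev_one, ev_zero, der_smul hD, der_one hD, smul_zero]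
      have h1 : G x [false] = 0 := by
        simp [G]
      rw [h1, zero_smul]
    · show ev 2 (G x) = D (ev 1 x)
      rw [ev_rec 0, ev_one, ev_one, ev_zero, der_smul hD, der_c hD]
      have h1 : G x [false, false] = 0 := by
        simp [G]
      have h2 : G x [true] = x [false] := by
        simp [G]
      rw [h1, h2, zero_smul, mul_zero, zero_add, mul_smul_comm, mul_one]
  | succ m ih =>
    refine ⟨ih.2, fun x => ?_⟩
    show ev (m + 1 + 2) (G x) = D (ev (m + 2) x)
    rw [ev_rec (m + 1), ev_rec m x, hD.1, hD.2.1, hD.2.1, der_c hD, der_d hD, ← ih.2, ← ih.1]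
    have h1 : ev (m + 1 + 1) (fun t => G x (false :: t)) =
        ev (m + 2) (G fun t => x (false :: t)) +
          (la * lb + lb * la) * ev m (fun t => x (true :: t)) := by
      have h2 : (fun t => G x (false :: t)) = fun t => G (fun t => x (false :: t)) t +
          (fun w : List Bool => match w with
            | true :: w' => x (true :: w')
            | _ => 0) t := by
        funext t
        rcases t with _ | ⟨_ | _, t⟩
        · simp only [G]
        · simp only [G]
        · simp only [G]
      rw [h2, ev_add]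
      refine congrArg₂ (· + ·) rfl ?_
      show ev (m + 2) _ = _
      rw [ev_rec]
      have h3 : ev (m + 1) (fun t => (fun w : List Bool => match w with
            | true :: w' => x (true :: w')
            | _ => 0) (false :: t)) = 0 := ev_null (m + 1)
      rw [h3, mul_zero, zero_add]
    have h4 : ev (m + 1) (fun t => G x (true :: t)) =
        ev (m + 1) (G fun t => x (true :: t)) + ev (m + 1) (fun t => x (false :: t)) := by
      have h2 : (fun t => G x (true :: t)) = fun t => G (fun t => x (true :: t)) t +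
          (fun t => x (false :: t)) t := by
        funext t
        simp only [G]
      rw [h2, ev_add]
    rw [h1, h4]
    noncomm_ring

theorem ev_mc_aux (m : ℕ) :
    (∀ x : List Bool → ℤ, ev (m + 1) (mc x) = ev m x * (la + lb)) ∧
      ∀ x : List Bool → ℤ, ev (m + 2) (mc x) = ev (m + 1) x * (la + lb) := by
  induction m with
  | zero =>
    refine ⟨fun x => ?_, fun x => ?_⟩
    · show ev 1 (mc x) = _
      rw [ev_one, ev_zero]
      have h1 : mc x [false] = x [] := by
        simp [mc]
      rw [h1, smul_mul_assoc, one_mul]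
    · show ev 2 (mc x) = ev 1 x * _
      rw [ev_rec 0, ev_one, ev_one, ev_zero]
      have h1 : mc x [false, false] = x [false] := by
        simp [mc]
      have h2 : mc x [true] = 0 := by
        simp [mc]
      rw [h1, h2, zero_smul, mul_zero, add_zero, smul_mul_assoc, mul_smul_comm]
  | succ m ih =>
    refine ⟨ih.2, fun x => ?_⟩
    show ev (m + 1 + 2) (mc x) = ev (m + 2) x * _
    rw [ev_rec (m + 1), ev_rec m x]
    have h1 : ev (m + 1 + 1) (fun t => mc x (false :: t)) =
        ev (m + 1) (fun t => x (false :: t)) * (la + lb) := by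
      rw [← ih.2]
      exact ev_congr _ _ _ fun w hw => mc_cons x false w (wd_ne _ w hw)
    have h2 : ev (m + 1) (fun t => mc x (true :: t)) =
        ev m (fun t => x (true :: t)) * (la + lb) := by
      rw [← ih.1]
      exact ev_congr _ _ _ fun w hw => mc_cons x true w (wd_ne _ w hw)
    rw [h1, h2]
    noncomm_ring

end T1aux

theorem ev_G {D : AB → AB} (hD : IsDer D) (m : ℕ) (x : List Bool → ℤ) :
    ev (m + 1) (G x) = D (ev m x) := (ev_G_aux hD m).1 x

theorem ev_mc (m : ℕ) (x : List Bool → ℤ) : ev (m + 1) (mc x) = ev m x * (la + lb) :=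
  (ev_mc_aux m).1 x

end Pool.Agent.H861.CX
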