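import Pool.Agent.H861.CX.Defs

/-!
# CX/T2: the identity between the E_i and the Phi_i in the free algebra
-/

set_option autoImplicit false

namespace Pool.Agent.H861.CX.T2aux

open Finset

structure Hyp {R : Type} [Ring R] (a b : R) (D : R → R) (S : ℕ → R) : Prop where
  add : ∀ x y, D (x + y) = D x + D y
  mul : ∀ x y, D (x * y) = D x * y + x * D y
  da : D a = b * a
  db : D b = a * b
  s0 : S 0 = 1
  ss : ∀ m, S (m + 1) = S m * (a + b) + D (S m)

def X {R : Type} [Ring R] (b : R) (S : ℕ → R) : ℕ → R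
  | 0 => 1
  | (j + 1) => S j * b

def P {R : Type} [Ring R] (a b : R) (S : ℕ → R) (N i : ℕ) : R :=
  ∑ k ∈ range (N + 1), (N.choose k : ℤ) • (X b S (i + k) * (a - b) ^ (N - k))

variable {R : Type} [Ring R] {a b : R} {D : R → R} {S : ℕ → R}

theorem sub' (h : Hyp a b D S) (x y : R) : D (x - y) = D x - D y := by
  have := h.add (x - y) y
  rw [sub_add_cancel] at this
  exact eq_sub_of_add_eq this.symm

theorem sum' (h : Hyp a b D S) {ι : Type} (s : Finset ι) (f : ι → R) :
    D (∑ i ∈ s, f i) = ∑ i ∈ s, D (f i) := map_sum (AddMonoidHom.mk' D h.add) f s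

theorem zsmul' (h : Hyp a b D S) (n : ℤ) (x : R) : D (n • x) = n • D x :=
  map_zsmul (AddMonoidHom.mk' D h.add) n x

theorem one' (h : Hyp a b D S) : D 1 = 0 := by
  have := h.mul 1 1
  simpa using this

theorem pow' (h : Hyp a b D S) (m : ℕ) :
    D ((a - b) ^ m) = b * (a - b) ^ m - (a - b) ^ m * b := by
  induction m with
  | zero => simp [one' h]
  | succ m ih =>
    rw [pow_succ, h.mul, ih, sub' h, h.da, h.db]
    generalize (a - b) ^ m = z
    noncomm_ring

theorem dX (h : Hyp a b D S) (j m : ℕ) : D (X b S j * (a - b) ^ m) =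
    X b S (j + 1) * (a - b) ^ m - X b S j * (a - b) ^ m * b := by
  cases j with
  | zero =>
    simp only [X]
    rw [one_mul, pow' h, h.s0, one_mul]
  | succ j =>
    simp only [X]
    rw [h.mul, pow' h, h.mul, h.db, h.ss]
    generalize (a - b) ^ m = z
    noncomm_ring

theorem R1 (h : Hyp a b D S) (N i : ℕ) :
    D (P a b S N i) = P a b S N (i + 1) - P a b S N i * b := by
  unfold P
  rw [sum' h, Finset.sum_mul, ← Finset.sum_sub_distrib]
  apply Finset.sum_congr rfl
  intro k _
  rw [zsmul' h, dX h, smul_sub, smul_mul_assoc, show i + 1 + k = i + k + 1 by omega]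

theorem R2 (N i : ℕ) : P a b S (N + 1) i = P a b S N (i + 1) + P a b S N i * (a - b) := by
  unfold P
  have h1 : (∑ k ∈ range (N + 1), (N.choose k : ℤ) • (X b S (i + k) * (a - b) ^ (N - k))) *
      (a - b) = ∑ k ∈ range (N + 1 + 1), (N.choose k : ℤ) •
        (X b S (i + k) * (a - b) ^ (N + 1 - k)) := by
    rw [Finset.sum_range_succ _ (N + 1), Nat.choose_succ_self, Nat.cast_zero, zero_smul, add_zero,
      Finset.sum_mul]
    apply Finset.sum_congr rfl
    intro k hk
    have hk' : k ≤ N := by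
      have := Finset.mem_range.1 hk
      omega
    rw [smul_mul_assoc, mul_assoc, ← pow_succ, show N - k + 1 = N + 1 - k by omega]
  rw [h1, Finset.sum_range_succ' _ (N + 1), Finset.sum_range_succ' _ (N + 1), ← add_assoc,
    ← Finset.sum_add_distrib, Nat.choose_zero_right, Nat.choose_zero_right]
  congr 1
  apply Finset.sum_congr rfl
  intro k _
  rw [Nat.choose_succ_succ, Nat.cast_add, add_smul, show i + 1 + k = i + (k + 1) by omega,
    show N + 1 - (k + 1) = N - k by omega]

theorem last (m : ℕ) : ∑ k ∈ range (m + 1), ((m + 1).choose (k + 1) : ℤ) •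
      (X b S (k + 1) * (a - b) ^ (m - k)) =
    (∑ k ∈ range m, ((m + 1).choose (k + 1) : ℤ) •
      (X b S (k + 1) * (a - b) ^ (m - 1 - k))) * (a - b) + S m * b := by
  rw [Finset.sum_range_succ, Nat.choose_self, Nat.cast_one, one_smul, Nat.sub_self, pow_zero,
    mul_one, Finset.sum_mul]
  congr 1
  apply Finset.sum_congr rfl
  intro k hk
  have hk' := Finset.mem_range.1 hk
  rw [smul_mul_assoc, mul_assoc, ← pow_succ, show m - 1 - k + 1 = m - k by omega]

theorem simp_rec (h : Hyp a b D S) (m : ℕ) : S m = (a - b) ^ m +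
    ∑ k ∈ range m, ((m + 1).choose (k + 1) : ℤ) • (X b S (k + 1) * (a - b) ^ (m - 1 - k)) := by
  induction m with
  | zero => simp [h.s0]
  | succ m ih =>
    have hD : D (S m) + S m * b = ∑ j ∈ range (m + 1), ((m + 1).choose j : ℤ) •
        (X b S (j + 1) * (a - b) ^ (m - j)) := by
      rw [Finset.sum_range_succ' _ m]
      have h3 : ∑ k ∈ range m, ((m + 1).choose (k + 1) : ℤ) •
          (X b S (k + 1 + 1) * (a - b) ^ (m - (k + 1))) =
          ∑ k ∈ range m, ((m + 1).choose (k + 1) : ℤ) •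
          (X b S (k + 1 + 1) * (a - b) ^ (m - 1 - k)) := by
        apply Finset.sum_congr rfl
        intro k _
        rw [show m - (k + 1) = m - 1 - k by omega]
      have h4 : X b S (0 + 1) = b := by simp [X, h.s0]
      rw [h4, Nat.choose_zero_right, Nat.cast_one, one_smul, Nat.sub_zero, h3]
      conv_lhs => rw [ih]
      rw [h.add, pow' h, sum' h, add_mul, Finset.sum_mul]
      simp only [zsmul' h, dX h, smul_sub, smul_mul_assoc, Finset.sum_sub_distrib]
      abel
    have hsplit : ∑ k ∈ range (m + 1), ((m + 1 + 1).choose (k + 1) : ℤ) •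
        (X b S (k + 1) * (a - b) ^ (m + 1 - 1 - k)) =
        ∑ k ∈ range (m + 1), ((m + 1).choose k : ℤ) • (X b S (k + 1) * (a - b) ^ (m - k)) +
        ∑ k ∈ range (m + 1), ((m + 1).choose (k + 1) : ℤ) •
          (X b S (k + 1) * (a - b) ^ (m - k)) := by
      rw [← Finset.sum_add_distrib]
      apply Finset.sum_congr rfl
      intro k _
      rw [Nat.choose_succ_succ, Nat.cast_add, add_smul, Nat.add_sub_cancel]
    have ih' : ∑ k ∈ range m, ((m + 1).choose (k + 1) : ℤ) •
        (X b S (k + 1) * (a - b) ^ (m - 1 - k)) = S m - (a - b) ^ m := by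
      rw [eq_sub_iff_add_eq, add_comm]
      exact ih.symm
    rw [hsplit, ← hD, last, ih', h.ss, pow_succ]
    generalize (a - b) ^ m = z
    generalize D (S m) = y
    noncomm_ring

theorem R0 (h : Hyp a b D S) (m : ℕ) : S m * a = P a b S (m + 1) 0 := by
  unfold P
  rw [Finset.sum_range_succ' _ (m + 1)]
  simp only [Nat.zero_add, Nat.add_sub_add_right, Nat.choose_zero_right, Nat.cast_one, one_smul,
    Nat.sub_zero, add_zero]
  rw [last]
  have ih' : ∑ k ∈ range m, ((m + 1).choose (k + 1) : ℤ) •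
        (X b S (k + 1) * (a - b) ^ (m - 1 - k)) = S m - (a - b) ^ m := by
      rw [eq_sub_iff_add_eq, add_comm]
      exact (simp_rec h m).symm
  rw [ih', pow_succ]
  simp only [X]
  generalize (a - b) ^ m = z
  noncomm_ring

theorem R3 (h : Hyp a b D S) (d : ℕ) : ∑ i ∈ range (d + 1), P a b S (d - i) i = S d := by
  induction d with
  | zero => simp [P, X, h.s0]
  | succ d ih =>
    rw [Finset.sum_range_succ']
    simp only [Nat.add_sub_add_right, Nat.sub_zero]
    rw [← R0 h, h.ss]
    have h1 : D (S d) = ∑ i ∈ range (d + 1), P a b S (d - i) (i + 1) - S d * b := by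
      conv_lhs => rw [← ih]
      rw [sum' h]
      simp only [R1 h]
      rw [Finset.sum_sub_distrib, ← Finset.sum_mul, ih]
    rw [h1]
    noncomm_ring

def A (a b : R) (S : ℕ → R) (d m : ℕ) : R := ∑ l ∈ range m, P a b S (d - l) l

theorem dA (h : Hyp a b D S) (d m : ℕ) : D (A a b S d m) =
    A a b S (d + 1) (m + 1) - P a b S (d + 1) 0 - A a b S d m * b := by
  unfold A
  rw [Finset.sum_range_succ']
  simp only [Nat.add_sub_add_right, Nat.sub_zero]
  rw [sum' h]
  simp only [R1 h]
  rw [Finset.sum_sub_distrib, ← Finset.sum_mul]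
  abel

theorem A_e (d m : ℕ) (hm : m ≤ d + 1) : A a b S d m * (a - b) =
    P a b S (d + 1) 0 - P a b S (d + 1 - m) m := by
  induction m with
  | zero => simp [A]
  | succ m ih =>
    have h1 : A a b S d (m + 1) = A a b S d m + P a b S (d - m) m := Finset.sum_range_succ _ _
    have h2 := R2 (a := a) (b := b) (S := S) (d - m) m
    have h3 : P a b S (d - m) m * (a - b) = P a b S (d + 1 - m) m - P a b S (d - m) (m + 1) := by
      rw [show d + 1 - m = d - m + 1 by omega, h2]
      abel
    rw [h1, add_mul, ih (by omega), h3, Nat.add_sub_add_right]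
    abel

def Ps (a b : R) (S : ℕ → R) (d i : ℕ) : R :=
  P a b S (d + 1 - i) i + (A a b S d (d + 1 - i) - A a b S d i) * b

theorem Ps_step (h : Hyp a b D S) (d i : ℕ) (hi : i ≤ d + 1) :
    D (Ps a b S d i) = Ps a b S (d + 1) (i + 1) := by
  have e1 := A_e (a := a) (b := b) (S := S) d i hi
  have e2 := A_e (a := a) (b := b) (S := S) d (d + 1 - i) (by omega)
  rw [show d + 1 - (d + 1 - i) = i by omega] at e2
  have e3 : A a b S (d + 1) (d + 1 - i + 1) =
      A a b S (d + 1) (d + 1 - i) + P a b S i (d + 1 - i) := by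
    have := Finset.sum_range_succ (fun l => P a b S (d + 1 - l) l) (d + 1 - i)
    rw [show d + 1 - (d + 1 - i) = i by omega] at this
    exact this
  unfold Ps
  rw [Nat.add_sub_add_right, h.add, h.mul, sub' h, dA h, dA h, e3, R1 h, h.db]
  have e4 : (A a b S d (d + 1 - i) - A a b S d i) * (a - b) =
      P a b S (d + 1 - i) i - P a b S i (d + 1 - i) := by
    rw [sub_mul, e1, e2]
    abel
  have e5 : (A a b S d (d + 1 - i) - A a b S d i) * (a * b) =
      (A a b S d (d + 1 - i) - A a b S d i) * b * b +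
      (P a b S (d + 1 - i) i - P a b S i (d + 1 - i)) * b := by
    rw [← e4]
    noncomm_ring
  rw [e5]
  generalize P a b S (d + 1 - i) i = x1
  generalize P a b S i (d + 1 - i) = x2
  generalize P a b S (d + 1 - i) (i + 1) = x3
  generalize A a b S d (d + 1 - i) = x4
  generalize A a b S d i = x5
  generalize A a b S (d + 1) (d + 1 - i) = x6
  generalize A a b S (d + 1) (i + 1) = x7
  generalize P a b S (d + 1) 0 = x8
  noncomm_ring

theorem Ps_iter (h : Hyp a b D S) (l : ℕ) : ∀ d, l ≤ d →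
    (D^[l]) (S (d - l) * (a + b)) = Ps a b S d l := by
  induction l with
  | zero =>
    intro d _
    have h3 := R3 h d
    simp only [Function.iterate_zero, id_eq, Nat.sub_zero, Ps]
    rw [← R0 h, show A a b S d (d + 1) = S d from h3, show A a b S d 0 = 0 from rfl]
    noncomm_ring
  | succ l ih =>
    intro d hd
    obtain ⟨d', rfl⟩ : ∃ d', d = d' + 1 := ⟨d - 1, by omega⟩
    rw [Nat.add_sub_add_right, Function.iterate_succ_apply', ih d' (by omega),
      Ps_step h d' l (by omega)]

theorem Ps_last (h : Hyp a b D S) (d : ℕ) : Ps a b S d (d + 1) = 0 := by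
  have h3 := R3 h d
  unfold Ps
  rw [Nat.sub_self, show A a b S d (d + 1) = S d from h3, show A a b S d 0 = 0 from rfl]
  simp [P, X]

theorem main (h : Hyp a b D S) (d : ℕ) (g : ℕ → ℤ) (hs : ∀ i ≤ d + 1, g i = g (d + 1 - i)) :
    ∑ i ∈ range (d + 1 + 1), g i • P a b S (d + 1 - i) i =
      ∑ l ∈ range (d + 1), g l • (D^[l]) (S (d - l) * (a + b)) := by
  have h1 : ∑ l ∈ range (d + 1), g l • (D^[l]) (S (d - l) * (a + b)) =
      ∑ l ∈ range (d + 1 + 1), g l • Ps a b S d l := by
    rw [Finset.sum_range_succ _ (d + 1), Ps_last h, smul_zero, add_zero]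
    apply Finset.sum_congr rfl
    intro l hl
    have := Finset.mem_range.1 hl
    rw [Ps_iter h l d (by omega)]
  have h2 : ∑ l ∈ range (d + 1 + 1), g l • A a b S d (d + 1 - l) =
      ∑ l ∈ range (d + 1 + 1), g l • A a b S d l := by
    rw [← Finset.sum_range_reflect (fun l => g l • A a b S d l) (d + 1 + 1)]
    apply Finset.sum_congr rfl
    intro l hl
    have := Finset.mem_range.1 hl
    rw [show d + 1 + 1 - 1 - l = d + 1 - l by omega, hs l (by omega)]
  have h3 : ∑ l ∈ range (d + 1 + 1), g l • Ps a b S d l =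
      ∑ i ∈ range (d + 1 + 1), g i • P a b S (d + 1 - i) i +
      (∑ l ∈ range (d + 1 + 1), g l • A a b S d (d + 1 - l) -
        ∑ l ∈ range (d + 1 + 1), g l • A a b S d l) * b := by
    rw [← Finset.sum_sub_distrib, Finset.sum_mul, ← Finset.sum_add_distrib]
    apply Finset.sum_congr rfl
    intro l _
    rw [Ps, smul_add, ← smul_sub, smul_mul_assoc]
  rw [h1, h3, h2, sub_self, zero_mul, add_zero]

end Pool.Agent.H861.CX.T2aux

namespace Pool.Agent.H861.CX

open Finset

theorem T2aux.hyp {D : AB → AB} (hD : IsDer D) : T2aux.Hyp la lb D (SA D) :=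
  ⟨hD.1, hD.2.1, hD.2.2.1, hD.2.2.2, rfl, fun _ => rfl⟩

theorem simplex_rec {D : AB → AB} (hD : IsDer D) (m : ℕ) :
    SA D m = (la - lb) ^ m + ∑ k ∈ range m, ((m + 1).choose (k + 1) : ℤ) •
      (SA D k * lb * (la - lb) ^ (m - 1 - k)) :=
  T2aux.simp_rec (T2aux.hyp hD) m

theorem T2aux.E_eq {D : AB → AB} (hD : IsDer D) (d i : ℕ) :
    E D d i = T2aux.P la lb (SA D) (d - i) i := by
  rcases Nat.eq_zero_or_pos i with rfl | hi
  · rcases Nat.eq_zero_or_pos d with rfl | hd
    · simp [E, T2aux.P, T2aux.X]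
    · obtain ⟨d', rfl⟩ : ∃ d', d = d' + 1 := ⟨d - 1, by omega⟩
      rw [Nat.sub_zero, ← T2aux.R0 (T2aux.hyp hD)]
      simp [E]
  · obtain ⟨i', rfl⟩ : ∃ i', i = i' + 1 := ⟨i - 1, by omega⟩
    unfold E T2aux.P
    rw [if_neg (by omega)]
    apply Finset.sum_congr rfl
    intro k _
    rw [show i' + 1 + k = (i' + k) + 1 by omega, Nat.add_sub_cancel]
    rfl

theorem sum_E {D : AB → AB} (hD : IsDer D) {d : ℕ} (hd : 1 ≤ d) (h : ℕ → ℤ)
    (hs : ∀ i ≤ d, h i = h (d - i)) :
    ∑ i ∈ range (d + 1), h i • E D d i =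
      ∑ l ∈ range d, h l • (D^[l]) (SA D (d - 1 - l) * (la + lb)) := by
  obtain ⟨d', rfl⟩ : ∃ d', d = d' + 1 := ⟨d - 1, by omega⟩
  simp only [T2aux.E_eq hD, Nat.add_sub_cancel]
  exact T2aux.main (T2aux.hyp hD) d' h hs

end Pool.Agent.H861.CX
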